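import Mathlib
import Pool.Agent.H648R2.S.Shift
import Pool.Agent.H648R2.S.Merge

set_option autoImplicit false

open Finset Polynomial

namespace Pool.Agent.H648R2.T

open Pool.Agent.H648R2.S

lemma signVar_le (n : ℕ) : ∀ P : ℤ[X], P.support.card ≤ n → P.signVariations ≤ n := by
  induction n with
  | zero =>
    intro P h
    have h1 : P = 0 := by
      rw [← support_eq_empty, ← Finset.card_eq_zero]; omega
    rw [h1, signVariations_zero]
  | succ n ih =>
    intro P h
    by_cases hP : P = 0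
    · rw [hP, signVariations_zero]; omega
    · have h1 : P.eraseLead.support.card < P.support.card := eraseLead_support_card_lt hP
      have h2 := ih P.eraseLead (by omega)
      have h3 := signVariations_le_eraseLead_succ (P := P)
      omega

lemma mult_le {b : ℕ} (hb : 2 ≤ b) (P Q : ℤ[X]) (hP : P ≠ 0) (k : ℕ)
    (h : P = (X - C (b : ℤ)) ^ k * Q) : k ≤ P.support.card := by
  have h1 : k ≤ P.rootMultiplicity (b : ℤ) := by
    rw [le_rootMultiplicity_iff hP]
    exact ⟨Q, h⟩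
  have h2 : P.rootMultiplicity (b : ℤ) ≤ P.roots.countP (0 < ·) := by
    classical
    rw [← count_roots, Multiset.count]
    have h3 : ∀ s : Multiset ℤ, Multiset.countP (fun x => (b : ℤ) = x) s ≤
        Multiset.countP (0 < ·) s := by
      intro s
      induction s using Multiset.induction_on with
      | empty => simp
      | cons a s ih =>
        rw [Multiset.countP_cons, Multiset.countP_cons]
        apply Nat.add_le_add ih
        split_ifs with h4 h5
        · exact le_rfl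
        · exfalso; apply h5; rw [← h4]; omega
        · omega
        · omega
    exact h3 _
  exact h1.trans (h2.trans ((roots_countP_pos_le_signVariations P).trans (signVar_le _ P le_rfl)))

/-- the value of the cofactor at `b` -/
lemma cofactor_eval {b : ℕ} (P Q : ℤ[X]) (k : ℕ) (h : P = (X - C (b : ℤ)) ^ k * Q) :
    (b : ℤ) ^ k * Q.eval (b : ℤ) =
      ∑ i ∈ P.support, (P.coeff i * (i.choose k : ℤ)) * (b : ℤ) ^ i := by
  have h1 : (hasseDeriv k P).eval (b : ℤ) = Q.eval (b : ℤ) := by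
    rw [← taylor_coeff, h, taylor_mul, taylor_pow]
    have h2 : taylor (b : ℤ) (X - C (b : ℤ)) = X := by
      rw [map_sub, taylor_X, taylor_C]; ring
    rw [h2, coeff_X_pow_mul' , if_pos le_rfl, Nat.sub_self, taylor_coeff_zero]
  rw [← h1, hasseDeriv_apply, Polynomial.sum_def, eval_finsetSum, Finset.mul_sum]
  apply Finset.sum_congr rfl
  intro i _
  rw [eval_monomial]
  by_cases hik : k ≤ i
  · have h3 : (b : ℤ) ^ i = (b : ℤ) ^ k * (b : ℤ) ^ (i - k) := by
      rw [← pow_add]; congr 1; omega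
    rw [h3]; ring
  · rw [Nat.choose_eq_zero_of_lt (by omega)]
    simp

lemma abs_act_le2 (P : ℤ[X]) (x : ℕ → ℝ) (H B : ℝ) (hH0 : 0 ≤ H) (hB0 : 0 ≤ B)
    (hH : ∀ i, |(P.coeff i : ℝ)| ≤ H) (n : ℕ)
    (hB : ∀ i, i ≤ P.natDegree → |x (n + i)| ≤ B) :
    |act P x n| ≤ (P.natDegree + 1) * H * B := by
  rw [act_eq]
  calc |∑ i ∈ P.support, P.coeff i • x (n + i)| ≤ ∑ i ∈ P.support, |P.coeff i • x (n + i)| :=
        Finset.abs_sum_le_sum_abs _ _
    _ ≤ ∑ i ∈ P.support, (H * B) := by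
        apply Finset.sum_le_sum
        intro i hi
        rw [zsmul_eq_mul, abs_mul]
        exact mul_le_mul (hH i) (hB i (le_natDegree_of_mem_supp _ hi)) (abs_nonneg _) hH0
    _ = P.support.card * (H * B) := by rw [Finset.sum_const, nsmul_eq_mul]
    _ ≤ (P.natDegree + 1 : ℕ) * (H * B) := by
        apply mul_le_mul_of_nonneg_right _ (by positivity)
        exact_mod_cast card_supp_le_succ_natDegree P
    _ = (P.natDegree + 1) * H * B := by push_cast; ring

/-- one division step: the quotient kills a slightly shorter window -/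
lemma window_div2 {b : ℕ} (hb : 2 ≤ b) {P Q : ℤ[X]} (h : P = (X - C (b : ℤ)) * Q) (K m : ℕ)
    (c : ℕ → ℤ) (hS : |act Q c (m + 1)| < (b : ℤ) ^ K)
    (hP : ∀ n, 1 ≤ n → n ≤ m → act P c n = 0) :
    ∀ n, 1 ≤ n → n ≤ m - K → act Q c n = 0 := by
  intro n hn1 hn2
  have hbZ : (2 : ℤ) ≤ b := by exact_mod_cast hb
  have hrec : ∀ k, 1 ≤ k → k ≤ m → act Q c (k + 1) = b * act Q c k := by
    intro k hk1 hk2
    have h1 := hP k hk1 hk2
    rw [h, act_mul, act_X_sub_C, smul_eq_mul] at h1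
    linarith
  have hup : ∀ j, n + j ≤ m + 1 → act Q c (n + j) = b ^ j * act Q c n := by
    intro j
    induction j with
    | zero => intro _; simp
    | succ j ih =>
      intro hj
      have h1 := hrec (n + j) (by omega) (by omega)
      rw [← add_assoc, h1, ih (by omega), pow_succ]; ring
  by_contra hne
  have h1 : 1 ≤ |act Q c n| := Int.one_le_abs hne
  have h2 := hup (m + 1 - n) (by omega)
  have h3 : n + (m + 1 - n) = m + 1 := by omega
  rw [h3] at h2
  rw [h2, abs_mul, abs_pow, abs_of_nonneg (by omega : (0 : ℤ) ≤ b)] at hS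
  have h6 : (b : ℤ) ^ K ≤ (b : ℤ) ^ (m + 1 - n) :=
    pow_le_pow_right₀ (by omega) (by omega)
  have h7 : (0 : ℤ) < (b : ℤ) ^ K := by positivity
  nlinarith

/-- removing a power of `X - b` -/
lemma elim2 {b : ℕ} (hb : 2 ≤ b) (H B K N : ℕ) (c : ℕ → ℤ) (Q : ℤ[X])
    (hK : (N + 1) * H * B < b ^ K) : ∀ (k m : ℕ) (P : ℤ[X]), P ≠ 0 →
    P = (X - C (b : ℤ)) ^ k * Q → (∀ i, |P.coeff i| ≤ H) → P.natDegree ≤ N →
    (∀ n, n ≤ m + 1 + N → |c n| ≤ B) → (∀ n, 1 ≤ n → n ≤ m → act P c n = 0) →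
    (∀ i, |Q.coeff i| ≤ H) ∧ ∀ n, 1 ≤ n → n ≤ m - k * K → act Q c n = 0 := by
  intro k
  induction k with
  | zero =>
    intro m P _ h hH _ _ hP
    rw [pow_zero, one_mul] at h
    subst h
    exact ⟨hH, fun n h1 h2 => hP n h1 (by omega)⟩
  | succ k ih =>
    intro m P hP0 h hH hN hc hP
    have h' : P = (X - C (b : ℤ)) * ((X - C (b : ℤ)) ^ k * Q) := by rw [h]; ring
    set P' : ℤ[X] := (X - C (b : ℤ)) ^ k * Q with hP'
    have hP'0 : P' ≠ 0 := by
      intro h0
      apply hP0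
      rw [h', h0, mul_zero]
    have hH' := quot_bound hb h' H hH
    have hdeg : P'.natDegree ≤ N := by
      rw [h', natDegree_mul (X_sub_C_ne_zero _) hP'0] at hN
      omega
    have hS : |act P' c (m + 1)| < (b : ℤ) ^ K := by
      have h1 := abs_act_le2 P' (fun k => (c k : ℝ)) H B (Nat.cast_nonneg _) (Nat.cast_nonneg _)
        (fun i => by exact_mod_cast hH' i) (m + 1)
        (fun i hi => by exact_mod_cast hc (m + 1 + i) (by omega))
      rw [act_cast] at h1
      have h2 : ((P'.natDegree : ℝ) + 1) * H * B ≤ ((N + 1) * H * B : ℕ) := by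
        push_cast
        have : (P'.natDegree : ℝ) ≤ N := by exact_mod_cast hdeg
        gcongr
      have h3 : |((act P' c (m + 1) : ℤ) : ℝ)| < ((b ^ K : ℕ) : ℝ) := by
        refine lt_of_le_of_lt (h1.trans h2) ?_
        exact_mod_cast hK
      exact_mod_cast h3
    obtain ⟨h1, h2⟩ := ih (m - K) P' hP'0 rfl hH' hdeg (fun n hn => hc n (by omega))
      (window_div2 hb h' K m c hS hP)
    refine ⟨h1, fun n hn1 hn2 => h2 n hn1 ?_⟩
    have : (k + 1) * K = k * K + K := by ring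
    omega

lemma lin_le_pow (A : ℕ) : ∃ W : ℕ, ∀ w, W ≤ w → A * (w + 1) ≤ 2 ^ w := by
  have h1 : ∀ w : ℕ, w + 1 ≤ 2 ^ w := fun w => Nat.lt_two_pow_self
  refine ⟨2 * A + 4, ?_⟩
  intro w hw
  -- w = u + v with u = w / 2
  obtain ⟨u, v, huv, hu, hv⟩ : ∃ u v, w = u + v ∧ A + 1 ≤ u ∧ w ≤ 2 * v ∧ v ≤ w := by
    refine ⟨w / 2, w - w / 2, by omega, by omega, by omega, by omega⟩
  have h2 : ∀ v : ℕ, 2 ≤ v → 2 * v ≤ 2 ^ v := by
    intro v hv
    induction v with
    | zero => omega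
    | succ v ih =>
      rcases Nat.lt_or_ge v 2 with h | h
      · interval_cases v
        · omega
        · norm_num
      · have := ih h
        rw [pow_succ]; omega
  have h3 : 2 * v ≤ 2 ^ v := h2 v (by omega)
  have h4 : w + 1 ≤ 2 * 2 ^ v := by omega
  have h6 : 2 * A ≤ 2 ^ u := by
    rcases Nat.lt_or_ge u 2 with h | h
    · have hA : A = 0 := by omega
      rw [hA]; simp
    · exact le_trans (by omega) (h2 u h)
  calc A * (w + 1) ≤ A * (2 * 2 ^ v) := Nat.mul_le_mul_left _ h4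
    _ = (2 * A) * 2 ^ v := by ring
    _ ≤ 2 ^ u * 2 ^ v := Nat.mul_le_mul_right _ h6
    _ = 2 ^ w := by rw [← pow_add, ← huv]

/-- a linear function of `m` is at most a small power of `b` -/
lemma lin_le_pow_div {b : ℕ} (hb : 2 ≤ b) (C q : ℕ) (hq : 0 < q) :
    ∃ M : ℕ, ∀ m, M ≤ m → C * m + 1 ≤ b ^ (m / q) := by
  obtain ⟨W, hW⟩ := lin_le_pow (C * q + 1)
  refine ⟨q * W, ?_⟩
  intro m hm
  have h1 : W ≤ m / q := (Nat.le_div_iff_mul_le hq).2 (by rw [mul_comm]; exact hm)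
  have h2 := hW (m / q) h1
  have h3 : m < (m / q + 1) * q := by
    have := Nat.lt_div_mul_add (a := m) hq
    rw [Nat.add_mul, one_mul]; omega
  have h4 : C * m ≤ C * ((m / q + 1) * q) := Nat.mul_le_mul_left _ h3.le
  calc C * m + 1 ≤ C * ((m / q + 1) * q) + 1 := by omega
    _ ≤ (C * q + 1) * (m / q + 1) := by nlinarith
    _ ≤ 2 ^ (m / q) := h2
    _ ≤ b ^ (m / q) := Nat.pow_le_pow_left hb _

/-- `merge` for sparse polynomials with exponentially bounded weights -/
theorem merge_sp (b : ℕ) (hb : 2 ≤ b) (ξ : ℝ) (hξ : IsAlgebraic ℚ ξ) (hirr : Irrational ξ)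
    (D : ℕ) (δ : ℝ) (hδ : 0 < δ) :
    ∃ ε : ℝ, 0 < ε ∧ ∃ L0 : ℕ, ∀ L : ℕ, L0 ≤ L → ∀ (U : Finset ℕ) (w : ℕ → ℤ), U.card ≤ D →
      (∀ i ∈ U, |(w i : ℝ)| ≤ Real.exp (ε * (L * Real.log b))) →
      (∀ i ∈ U, δ * (L + i) ≤ L) →
      ∑ i ∈ U, w i * (b : ℤ) ^ (L + i) ≠ 0 →
      ∀ P : ℤ, Real.exp (-(δ * (L * Real.log b))) <
        |ξ * (∑ i ∈ U, (w i : ℝ) * (b : ℝ) ^ (L + i)) - P| := by
  choose ε hε L1 h1 using fun s => merge b hb ξ hξ hirr s δ hδ
  have hne : (Finset.range (D + 1)).Nonempty := ⟨0, by simp⟩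
  refine ⟨(Finset.range (D + 1)).inf' hne ε, ?_, (Finset.range (D + 1)).sup L1, ?_⟩
  · rw [Finset.lt_inf'_iff]
    intro i _; exact hε i
  intro L hL U w hUD hw hdeg hsum P
  set s := U.card with hs
  have hsD : s ∈ Finset.range (D + 1) := Finset.mem_range.2 (by omega)
  have hL1 : L1 s ≤ L := le_trans (Finset.le_sup (f := L1) hsD) hL
  have hεs : (Finset.range (D + 1)).inf' hne ε ≤ ε s := Finset.inf'_le _ hsD
  have hlog : 0 ≤ (L : ℝ) * Real.log b := by
    have := Real.log_natCast_nonneg b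
    positivity
  let f : Fin s ≃ U := (U.equivFinOfCardEq rfl).symm
  have hsumf : ∀ {R : Type} [AddCommMonoid R] (g : ℕ → R),
      ∑ j : Fin s, g (f j : ℕ) = ∑ i ∈ U, g i := by
    intro R _ g
    rw [← Finset.sum_coe_sort U g]
    exact Equiv.sum_comp f (fun i : U => g (i : ℕ))
  have h2 := h1 s L hL1 (fun j => L + (f j : ℕ)) (fun j => Nat.le_add_right _ _)
    (by
      intro j
      push_cast
      exact hdeg _ (f j).2)
    (fun j => w (f j))
    (by
      intro j
      refine le_trans (hw _ (f j).2) (Real.exp_le_exp.mpr ?_)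
      exact mul_le_mul_of_nonneg_right hεs hlog)
    (by
      rw [hsumf (fun i => w i * (b : ℤ) ^ (L + i))]
      exact hsum) P
  rw [hsumf (fun i => (w i : ℝ) * (b : ℝ) ^ (L + i))] at h2
  exact h2

/-- **Core theorem**, with exponentially large coefficients allowed. -/
theorem core2 (b : ℕ) (hb : 2 ≤ b) (ξ : ℝ) (hξ : IsAlgebraic ℚ ξ) (hirr : Irrational ξ)
    (D C : ℕ) :
    ∃ q M : ℕ, 0 < q ∧ ∀ (c : ℕ → ℤ) (x : ℕ → ℝ),
      (∀ n, (b : ℝ) * x n = c (n + 1) + x (n + 1)) → (∀ n, ∃ k : ℤ, ξ * (b : ℝ) ^ n - x n = k) →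
      ∀ m h : ℕ, M ≤ m → q * h ≤ m →
      (∀ n, n ≤ (C + 2) * m → |c n| ≤ ((b ^ h : ℕ) : ℤ)) →
      (∀ n, n ≤ (C + 2) * m → |x n| ≤ ((b ^ h : ℕ) : ℝ)) →
      ∀ P : ℤ[X], P ≠ 0 → P.support.card ≤ D → (∀ i, |P.coeff i| ≤ ((b ^ h : ℕ) : ℤ)) →
      P.natDegree ≤ C * m → ∃ n, 1 ≤ n ∧ n ≤ m ∧ act P c n ≠ 0 := by
  have hbR : (2 : ℝ) ≤ b := by exact_mod_cast hb
  have hb0 : (0 : ℝ) < b := by linarith
  have hlogb : 0 < Real.log b := Real.log_pos (by linarith)
  set δ : ℝ := 1 / (4 * C + 4) with hδ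
  have hδ0 : 0 < δ := by rw [hδ]; positivity
  have hδ1 : δ ≤ 1 / 4 := by
    rw [hδ]
    apply div_le_div_of_nonneg_left (by norm_num) (by norm_num)
    have : (0 : ℝ) ≤ C := Nat.cast_nonneg _
    linarith
  obtain ⟨ε, hε, L0, hmerge⟩ := merge_sp b hb ξ hξ hirr D δ hδ0
  -- the constants
  obtain ⟨q1, hq1⟩ := exists_nat_gt (4 * (D + 1) / ε)
  set q : ℕ := q1 + 16 * (D + 2) * (D + 2) + 1 with hq
  have hq0 : 0 < q := by omega
  obtain ⟨M1, hM1⟩ := lin_le_pow_div hb C q hq0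
  refine ⟨q, M1 + 2 * L0 + 16 * (D + 2) * (D + 2) + 16, hq0, ?_⟩
  intro c x hrec hint m h hm hqh hc hx P hP0 hPD hPH hPdeg
  by_contra hcon
  push Not at hcon
  obtain ⟨w, hw⟩ : ∃ w, w = m / q := ⟨_, rfl⟩
  have hwm : q * w ≤ m := by rw [hw]; exact Nat.mul_div_le _ _
  have hCw : C * m + 1 ≤ b ^ w := by rw [hw]; exact hM1 m (by omega)
  -- factor out `X - b`
  obtain ⟨Q, hPQ, hQnd⟩ := exists_eq_pow_rootMultiplicity_mul_and_not_dvd P hP0 (b : ℤ)
  generalize P.rootMultiplicity (b : ℤ) = k at hPQ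
  have hkD : k ≤ D := (mult_le hb P Q hP0 k hPQ).trans hPD
  have hev : Q.eval (b : ℤ) ≠ 0 := by
    intro h0
    exact hQnd (dvd_iff_isRoot.2 h0)
  have hQ0 : Q ≠ 0 := by
    rintro rfl
    simp at hev
  have hQdeg : Q.natDegree ≤ C * m := by
    rw [hPQ, natDegree_mul (pow_ne_zero _ (X_sub_C_ne_zero _)) hQ0] at hPdeg
    omega
  obtain ⟨K, hK⟩ : ∃ K, K = w + 2 * h + 1 := ⟨_, rfl⟩
  have hSK : (C * m + 1) * b ^ h * b ^ h < b ^ K := by
    have h1 : b ^ K = b ^ w * b ^ h * b ^ h * b := by rw [hK, ← pow_add, ← pow_add, ← pow_succ]; congr 1; ring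
    rw [h1]
    have h2 : (C * m + 1) * b ^ h * b ^ h ≤ b ^ w * b ^ h * b ^ h := by gcongr
    have h3 : 0 < b ^ w * b ^ h * b ^ h := by positivity
    nlinarith
  obtain ⟨hQH, hQ⟩ := elim2 hb (b ^ h) (b ^ h) K (C * m) c Q hSK k m P hP0 hPQ hPH hPdeg
    (fun n hn => hc n (by
      have : (C + 2) * m = C * m + 2 * m := by ring
      omega)) (fun n h1 h2 => hcon n h1 h2)
  -- sizes
  have hqw : 16 * (D + 2) * (D + 2) * w ≤ m := by
    refine le_trans (Nat.mul_le_mul_right _ ?_) hwm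
    omega
  have hqh' : 16 * (D + 2) * (D + 2) * h ≤ m := by
    refine le_trans (Nat.mul_le_mul_right _ ?_) hqh
    omega
  have hkK : 4 * ((k + 1) * K + k) ≤ m := by
    have h1 : (k + 1) * K + k ≤ (D + 2) * (w + 2 * h + 2) := by
      rw [hK]; nlinarith
    have h2 : (D + 2) * (w + 2 * h + 2) ≤ (D + 2) * (D + 2) * w + 2 * ((D + 2) * (D + 2) * h) +
        2 * (D + 2) := by
      nlinarith [Nat.zero_le (D * w), Nat.zero_le (D * h), Nat.zero_le (D * D * w),
        Nat.zero_le (D * D * h)]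
    have h3 : 32 * (D + 2) ≤ m := by
      have : 32 * (D + 2) ≤ 16 * (D + 2) * (D + 2) := by nlinarith
      omega
    have h4 : 16 * ((D + 2) * (D + 2) * w) ≤ m := by
      have : 16 * ((D + 2) * (D + 2) * w) = 16 * (D + 2) * (D + 2) * w := by ring
      omega
    have h5 : 16 * ((D + 2) * (D + 2) * h) ≤ m := by
      have : 16 * ((D + 2) * (D + 2) * h) = 16 * (D + 2) * (D + 2) * h := by ring
      omega
    omega
  have hkK2 : 4 * (k * K + K + k) ≤ m := by
    have h1 : (k + 1) * K = k * K + K := by ring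
    rw [← h1]; exact hkK
  clear hkK
  obtain ⟨kK, hkK⟩ : ∃ kK, kK = k * K := ⟨_, rfl⟩
  rw [← hkK] at hkK2 hQ
  set L : ℕ := m / 2 with hL
  have hLm : 2 * L ≤ m := by omega
  have hLm' : m ≤ 2 * L + 1 := by omega
  have hLL0 : L0 + 1 ≤ L := by omega
  have hL1 : 1 ≤ L := by omega
  -- the real tail
  have hrec' : ∀ n, (b : ℝ) * act Q x n = ((act Q c (n + 1) : ℤ) : ℝ) + act Q x (n + 1) := by
    intro n
    have h1 : (b : ℤ) • x = (fun k => ((c (k + 1) : ℤ) : ℝ)) + fun k => x (k + 1) := by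
      funext k
      simp only [Pi.smul_apply, Pi.add_apply, zsmul_eq_mul]
      push_cast
      exact hrec k
    have h2 := congrFun (congrArg (act Q) h1) n
    rw [act_zsmul, act_add, Pi.smul_apply, Pi.add_apply, zsmul_eq_mul,
      act_E Q (fun k => ((c k : ℤ) : ℝ)) n, act_E, act_cast] at h2
    push_cast at h2
    exact h2
  have hup : ∀ j, (L + k) + j ≤ m - kK →
      (b : ℝ) ^ j * act Q x (L + k) = act Q x ((L + k) + j) := by
    intro j
    induction j with
    | zero => intro _; simp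
    | succ j ih =>
      intro hj
      have h1 := ih (by omega)
      have h2 := hrec' ((L + k) + j)
      rw [hQ ((L + k) + j + 1) (by omega) (by omega)] at h2
      rw [pow_succ', mul_assoc, h1, h2]
      simp [add_assoc]
  set T : ℕ := m - kK - (L + k) with hT
  have hb1 : |act Q x (L + k)| * (b : ℝ) ^ T ≤ (b : ℝ) ^ K := by
    have h1 := hup T (by omega)
    have h2 := abs_act_le2 Q x ((b ^ h : ℕ) : ℝ) ((b ^ h : ℕ) : ℝ) (Nat.cast_nonneg _)
      (Nat.cast_nonneg _) (fun i => by exact_mod_cast hQH i) ((L + k) + T)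
      (fun i hi => hx _ (by
        have h5 : (C + 2) * m = C * m + 2 * m := by ring
        omega))
    rw [← h1, abs_mul, abs_of_pos (by positivity : (0 : ℝ) < (b : ℝ) ^ T)] at h2
    rw [mul_comm]
    refine h2.trans ?_
    have h3 : ((Q.natDegree : ℝ) + 1) * ((b ^ h : ℕ) : ℝ) * ((b ^ h : ℕ) : ℝ) ≤
        (((C * m + 1) * b ^ h * b ^ h : ℕ) : ℝ) := by
      push_cast
      have : (Q.natDegree : ℝ) ≤ C * m := by exact_mod_cast hQdeg
      gcongr
    refine h3.trans ?_
    exact_mod_cast hSK.le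
  -- the integer
  choose kk hkk using hint
  have hintQ : ξ * ((b : ℝ) ^ (L + k) * ((Q.eval (b : ℤ) : ℤ) : ℝ)) - act Q x (L + k) =
      ((act Q kk (L + k) : ℤ) : ℝ) := by
    have h1 : (fun n => ξ * (b : ℝ) ^ n) = x + fun n => ((kk n : ℤ) : ℝ) := by
      funext n
      simp only [Pi.add_apply]
      rw [← hkk n]; ring
    have h2 := congrFun (congrArg (act Q) h1) (L + k)
    rw [act_add, Pi.add_apply, act_cast] at h2
    have h2' : act Q (fun n => ξ * (b : ℝ) ^ n) (L + k) =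
        ξ * ((b : ℝ) ^ (L + k) * ((Q.eval (b : ℤ) : ℤ) : ℝ)) := by
      rw [act_eq, eval_eq_sum, Polynomial.sum_def]
      push_cast
      rw [Finset.mul_sum, Finset.mul_sum]
      apply Finset.sum_congr rfl
      intro i _
      rw [zsmul_eq_mul, pow_add]; ring
    rw [h2'] at h2
    linarith
  have hval : ∑ i ∈ P.support, (P.coeff i * (i.choose k : ℤ)) * (b : ℤ) ^ (L + i) =
      (b : ℤ) ^ (L + k) * Q.eval (b : ℤ) := by
    have h1 := cofactor_eval P Q k hPQ
    rw [pow_add, mul_assoc, h1, Finset.mul_sum]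
    apply Finset.sum_congr rfl
    intro i _
    rw [pow_add]; ring
  have hvalR : ∑ i ∈ P.support, (((P.coeff i * (i.choose k : ℤ) : ℤ)) : ℝ) * (b : ℝ) ^ (L + i) =
      (b : ℝ) ^ (L + k) * ((Q.eval (b : ℤ) : ℤ) : ℝ) := by
    exact_mod_cast congrArg (Int.cast (R := ℝ)) hval
  have hb0Z : (b : ℤ) ≠ 0 := by omega
  have h3 := hmerge L (by omega) P.support (fun i => P.coeff i * (i.choose k : ℤ)) hPD
    (by
      intro i hi
      have h1 : |((P.coeff i * (i.choose k : ℤ) : ℤ) : ℝ)| ≤ (b : ℝ) ^ (h + w * D) := by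
        have h2 : |P.coeff i * (i.choose k : ℤ)| ≤ ((b ^ h * (b ^ w) ^ D : ℕ) : ℤ) := by
          rw [abs_mul]
          have h3 : |(i.choose k : ℤ)| ≤ (((b ^ w) ^ D : ℕ) : ℤ) := by
            rw [Nat.abs_cast]
            have h4 : i.choose k ≤ (b ^ w) ^ D := by
              have h5 : i.choose k ≤ i ^ k := Nat.choose_le_pow _ _
              have h6 : i ≤ C * m := (le_natDegree_of_mem_supp _ hi).trans hPdeg
              have h7 : i ≤ b ^ w := by omega
              refine h5.trans ((Nat.pow_le_pow_left h7 _).trans ?_)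
              exact Nat.pow_le_pow_right (by positivity) hkD
            exact_mod_cast h4
          rw [Nat.cast_mul]
          exact mul_le_mul (hPH i) h3 (abs_nonneg _) (by positivity)
        have h3 : |((P.coeff i * (i.choose k : ℤ) : ℤ) : ℝ)| ≤ ((b ^ h * (b ^ w) ^ D : ℕ) : ℝ) := by
          exact_mod_cast h2
        refine h3.trans (le_of_eq ?_)
        push_cast
        rw [← pow_mul, ← pow_add]
      refine h1.trans ?_
      have h2 : (b : ℝ) ^ (h + w * D) = Real.exp (((h + w * D : ℕ) : ℝ) * Real.log b) := by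
        rw [← Real.rpow_natCast, Real.rpow_def_of_pos hb0, mul_comm]
      rw [h2]
      apply Real.exp_le_exp.mpr
      rw [← mul_assoc]
      apply mul_le_mul_of_nonneg_right _ hlogb.le
      -- h + w D ≤ (D + 1) m / q ≤ ε L
      have h5 : (4 * (D + 1) : ℝ) < q1 * ε := by rwa [div_lt_iff₀ hε] at hq1
      have h6 : (q1 : ℝ) * h ≤ m := by
        have : q1 * h ≤ m := le_trans (Nat.mul_le_mul_right _ (by omega)) hqh
        exact_mod_cast this
      have h7 : (q1 : ℝ) * w ≤ m := by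
        have : q1 * w ≤ m := le_trans (Nat.mul_le_mul_right _ (by omega)) hwm
        exact_mod_cast this
      have h8 : (m : ℝ) ≤ 4 * L := by
        have : m ≤ 4 * L := by omega
        exact_mod_cast this
      have hq1pos : (0 : ℝ) < q1 := by
        have h9 : (0 : ℝ) < 4 * (D + 1) / ε := by positivity
        linarith
      have h9 : (q1 : ℝ) * (((h + w * D : ℕ) : ℝ)) ≤ (D + 1) * (4 * L) := by
        push_cast
        have : (q1 : ℝ) * w * D ≤ m * D := mul_le_mul_of_nonneg_right h7 (Nat.cast_nonneg _)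
        have h10 : (m : ℝ) * D ≤ 4 * L * D := mul_le_mul_of_nonneg_right h8 (Nat.cast_nonneg _)
        nlinarith
      have h10 : (D + 1 : ℝ) * (4 * L) ≤ q1 * (ε * L) := by
        have h11 : (0 : ℝ) ≤ L := Nat.cast_nonneg _
        nlinarith
      have h11 := h9.trans h10
      exact le_of_mul_le_mul_left h11 hq1pos)
    (by
      intro i hi
      have h1 : i ≤ C * m := (le_natDegree_of_mem_supp _ hi).trans hPdeg
      have h1' : i ≤ C * (2 * L + 1) := h1.trans (Nat.mul_le_mul_left _ hLm')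
      have h2 : (i : ℝ) ≤ C * (2 * L + 1) := by exact_mod_cast h1'
      have h3 : (1 : ℝ) ≤ L := by exact_mod_cast hL1
      have h4 : (0 : ℝ) ≤ C := Nat.cast_nonneg _
      rw [hδ, div_mul_eq_mul_div, one_mul, div_le_iff₀ (by positivity)]
      nlinarith)
    (by
      rw [hval]
      exact mul_ne_zero (pow_ne_zero _ hb0Z) hev) (act Q kk (L + k))
  rw [hvalR, ← hintQ] at h3
  have h4 : ξ * ((b : ℝ) ^ (L + k) * ((Q.eval (b : ℤ) : ℤ) : ℝ)) -
      (ξ * ((b : ℝ) ^ (L + k) * ((Q.eval (b : ℤ) : ℤ) : ℝ)) - act Q x (L + k)) =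
      act Q x (L + k) := by ring
  rw [h4] at h3
  have hpow : ∀ n : ℕ, (b : ℝ) ^ n = Real.exp ((n : ℝ) * Real.log b) := by
    intro n
    rw [← Real.rpow_natCast, Real.rpow_def_of_pos hb0, mul_comm]
  have h6 : Real.exp (-(δ * (L * Real.log b))) * (b : ℝ) ^ T < (b : ℝ) ^ K :=
    lt_of_lt_of_le (mul_lt_mul_of_pos_right h3 (by positivity)) hb1
  rw [hpow, hpow, ← Real.exp_add, Real.exp_lt_exp] at h6
  have h8 : (T : ℝ) ≥ L - (kK + k) := by
    have h9 : L ≤ T + (kK + k) := by omega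
    have h10 : (L : ℝ) ≤ T + (kK + k) := by exact_mod_cast h9
    linarith
  have h9 : (4 * ((kK + K) + k) : ℝ) ≤ 2 * L + 1 := by
    have : 4 * ((kK + K) + k) ≤ 2 * L + 1 := by omega
    exact_mod_cast this
  have h10 : (16 : ℝ) ≤ 2 * L + 1 := by
    have : 16 ≤ 2 * L + 1 := by omega
    exact_mod_cast this
  have h11 : 0 < ((T : ℝ) - δ * L - K) := by
    have h12 : δ * L ≤ 1 / 4 * L := mul_le_mul_of_nonneg_right hδ1 (Nat.cast_nonneg _)
    linarith
  have h12 := mul_pos h11 hlogb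
  nlinarith

end Pool.Agent.H648R2.T
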