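import Mathlib

set_option autoImplicit false

open Finset

attribute [local instance] Matrix.seminormedAddCommGroup

namespace Pool.Agent.H648R2.T

/-- bounded integer relations from rational ones (Siegel's lemma) -/
theorem rel_bound {ι : Type} [Fintype ι] (m : ℕ) (v : ι → Fin m → ℤ) (B : ℕ) (hB1 : 1 ≤ B)
    (hv : ∀ j i, |v j i| ≤ B) (lam : ι → ℚ) (hlam : lam ≠ 0)
    (hrel : ∀ i, ∑ j, lam j * (v j i : ℚ) = 0) :
    ∃ g : ι → ℤ, g ≠ 0 ∧ (∀ j, |g j| ≤ (((Fintype.card ι * B) ^ (Fintype.card ι) : ℕ) : ℤ)) ∧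
      ∀ i, ∑ j, g j * v j i = 0 := by
  classical
  have hne : Nonempty ι := by
    by_contra h
    rw [not_nonempty_iff] at h
    exact hlam (Subsingleton.elim _ _)
  have hcard : 0 < Fintype.card ι := Fintype.card_pos
  -- rows
  let r : Fin m → (ι → ℚ) := fun i j => (v j i : ℚ)
  obtain ⟨κ, a, ha, hspan, hind⟩ := exists_linearIndependent' ℚ r
  have : Finite κ := Finite.of_injective a ha
  have : Fintype κ := Fintype.ofFinite κ
  -- the span is proper
  let φ : (ι → ℚ) →ₗ[ℚ] ℚ := ∑ j, lam j • LinearMap.proj j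
  have hφ : ∀ y : ι → ℚ, φ y = ∑ j, lam j * y j := by
    intro y
    simp [φ, LinearMap.sum_apply]
  have hker : LinearMap.ker φ ≠ ⊤ := by
    intro htop
    apply hlam
    funext j
    have h1 : Pi.single j (1 : ℚ) ∈ LinearMap.ker φ := by rw [htop]; trivial
    rw [LinearMap.mem_ker, hφ] at h1
    simpa [Pi.single_apply] using h1
  have hsub : Submodule.span ℚ (Set.range (r ∘ a)) ≤ LinearMap.ker φ := by
    rw [Submodule.span_le]
    rintro y ⟨i, rfl⟩
    simp only [SetLike.mem_coe, LinearMap.mem_ker, hφ]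
    exact hrel (a i)
  have hκ : Fintype.card κ < Fintype.card ι := by
    have h1 := finrank_span_eq_card hind
    have h2 : Module.finrank ℚ (Submodule.span ℚ (Set.range (r ∘ a))) ≤
        Module.finrank ℚ (LinearMap.ker φ) := Submodule.finrank_mono hsub
    have h3 : Module.finrank ℚ (LinearMap.ker φ) < Module.finrank ℚ (ι → ℚ) :=
      Submodule.finrank_lt hker
    rw [Module.finrank_fintype_fun_eq_card] at h3
    omega
  -- extension to all rows
  have hext : ∀ g : ι → ℤ, (∀ i : κ, ∑ j, g j * v j (a i) = 0) → ∀ i, ∑ j, g j * v j i = 0 := by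
    intro g hg i
    let ψ : (ι → ℚ) →ₗ[ℚ] ℚ := ∑ j, (g j : ℚ) • LinearMap.proj j
    have hψ : ∀ y : ι → ℚ, ψ y = ∑ j, (g j : ℚ) * y j := by
      intro y
      simp [ψ, LinearMap.sum_apply]
    have h1 : Submodule.span ℚ (Set.range (r ∘ a)) ≤ LinearMap.ker ψ := by
      rw [Submodule.span_le]
      rintro y ⟨i, rfl⟩
      simp only [SetLike.mem_coe, LinearMap.mem_ker, hψ]
      have h2 := hg i
      have h3 : ((∑ j, g j * v j (a i) : ℤ) : ℚ) = 0 := by rw [h2]; simp
      push_cast at h3
      exact h3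
    have h2 : r i ∈ Submodule.span ℚ (Set.range r) := Submodule.subset_span ⟨i, rfl⟩
    rw [← hspan] at h2
    have h3 := h1 h2
    rw [LinearMap.mem_ker, hψ] at h3
    have h4 : ((∑ j, g j * v j i : ℤ) : ℚ) = 0 := by
      push_cast
      exact h3
    exact_mod_cast h4
  rcases Nat.eq_zero_or_pos (Fintype.card κ) with h0 | hpos
  · -- no rows at all
    have : IsEmpty κ := Fintype.card_eq_zero_iff.1 h0
    obtain ⟨j0⟩ := hne
    refine ⟨Pi.single j0 1, ?_, ?_, ?_⟩
    · intro h
      have := congrFun h j0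
      simp at this
    · intro j
      have h1 : (1 : ℕ) ≤ (Fintype.card ι * B) ^ (Fintype.card ι) :=
        Nat.one_le_pow _ _ (Nat.mul_pos hcard (by omega))
      have h2 : ((1 : ℕ) : ℤ) ≤ (((Fintype.card ι * B) ^ (Fintype.card ι) : ℕ) : ℤ) := by
        exact_mod_cast h1
      rw [Pi.single_apply]
      split_ifs
      · simpa using h2
      · simp only [abs_zero]; omega
    · exact hext _ (fun i => isEmptyElim i)
  · let A : Matrix κ ι ℤ := Matrix.of fun i j => v j (a i)
    obtain ⟨t, ht0, hAt, hnorm⟩ := Int.Matrix.exists_ne_zero_int_vec_norm_le A hκ hpos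
    refine ⟨t, ht0, ?_, ?_⟩
    · intro j
      have h1 : ‖t j‖ ≤ ‖t‖ := norm_le_pi_norm t j
      rw [Int.norm_eq_abs] at h1
      have hA : max 1 ‖A‖ ≤ (B : ℝ) := by
        apply max_le
        · exact_mod_cast hB1
        · rw [Matrix.norm_le_iff (Nat.cast_nonneg _)]
          intro i j
          rw [Int.norm_eq_abs]
          exact_mod_cast hv j (a i)
      have h2 : ((Fintype.card ι : ℝ) * max 1 ‖A‖) ^
          (((Fintype.card κ : ℝ)) / (Fintype.card ι - Fintype.card κ)) ≤
          ((Fintype.card ι : ℝ) * B) ^ (Fintype.card ι : ℝ) := by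
        have h3 : (1 : ℝ) ≤ Fintype.card ι := by exact_mod_cast hcard
        have h4 : (1 : ℝ) ≤ max 1 ‖A‖ := le_max_left _ _
        have h5 : (1 : ℝ) ≤ (Fintype.card ι : ℝ) * max 1 ‖A‖ := by nlinarith
        have h6 : (1 : ℝ) ≤ (Fintype.card ι : ℝ) - Fintype.card κ := by
          have : (Fintype.card κ : ℝ) + 1 ≤ Fintype.card ι := by exact_mod_cast hκ
          linarith
        calc ((Fintype.card ι : ℝ) * max 1 ‖A‖) ^
              (((Fintype.card κ : ℝ)) / (Fintype.card ι - Fintype.card κ))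
            ≤ ((Fintype.card ι : ℝ) * max 1 ‖A‖) ^ (Fintype.card ι : ℝ) := by
              apply Real.rpow_le_rpow_of_exponent_le h5
              rw [div_le_iff₀ (by linarith)]
              have h7 : (Fintype.card κ : ℝ) ≤ Fintype.card ι := by exact_mod_cast hκ.le
              nlinarith
          _ ≤ ((Fintype.card ι : ℝ) * B) ^ (Fintype.card ι : ℝ) := by
              apply Real.rpow_le_rpow (by linarith) _ (by linarith)
              exact mul_le_mul_of_nonneg_left hA (by linarith)
      have h3 : |(t j : ℝ)| ≤ ((Fintype.card ι : ℝ) * B) ^ (Fintype.card ι : ℝ) :=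
        h1.trans (hnorm.trans h2)
      rw [Real.rpow_natCast] at h3
      exact_mod_cast h3
    · apply hext
      intro i
      have h1 := congrFun hAt i
      rw [Matrix.mulVec, Pi.zero_apply] at h1
      rw [← h1]
      unfold dotProduct
      apply Finset.sum_congr rfl
      intro j _
      simp only [A, Matrix.of_apply]
      ring

end Pool.Agent.H648R2.T
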