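import Mathlib

set_option autoImplicit false

open Finset

namespace Pool.Agent.H648R2.T

/-- `RankLE F k s r ρ`: the matrix `F (W * k^r + u)`, with rows `W < k^s` and columns `u < k^r`,
has rank at most `ρ`. -/
def RankLE (F : ℕ → ℤ) (k s r ρ : ℕ) : Prop :=
  ∃ (α : ℕ → Fin ρ → ℚ) (β : Fin ρ → ℕ → ℚ), ∀ W, W < k ^ s → ∀ u, u < k ^ r →
    (F (W * k ^ r + u) : ℚ) = ∑ z, α W z * β z u

/-- the ranks are not of full order of magnitude -/
def Thin (F : ℕ → ℤ) (k : ℕ) : Prop :=
  ∀ T : ℕ, ∃ s ρ r0 : ℕ, T * (ρ + 1) ≤ k ^ s ∧ ∀ r, r0 ≤ r → RankLE F k s r ρ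

/-- a small system of linear equations kills the windows of `F` -/
def Kill {ι : Type} [Fintype ι] (F : ℕ → ℤ) (τ : ι → ℕ) (t m e : ℕ) : Prop :=
  ∃ (E : Type) (_ : Fintype E) (a : E → ι → ℚ), Fintype.card E ≤ e ∧
    ∀ lam : ι → ℚ, (∀ i, ∑ j, a i j * lam j = 0) → ∀ x, x < m →
      ∑ j, lam j * (F (t + τ j + x) : ℚ) = 0

lemma kill_thin {F : ℕ → ℤ} {k : ℕ} (hk : 2 ≤ k) (hF : Thin F k) (T : ℕ) :
    ∃ J r0 : ℕ, 0 < J ∧ ∀ r, r0 ≤ r → ∀ t, t ≤ T * J * k ^ r →
      ∃ e, T * e ≤ J ∧ Kill (ι := Fin J) F (fun j => (j : ℕ) * k ^ r) t (k ^ r) e := by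
  obtain ⟨s, ρ, r0, hρ, hrank⟩ := hF ((T + 4) * (2 * T + 2))
  set J : ℕ := k ^ s / (T + 4) with hJ
  have hJ1 : (T + 4) * J ≤ k ^ s := Nat.mul_div_le _ _
  have hJ2 : k ^ s < (T + 4) * (J + 1) := by
    have := Nat.lt_mul_div_succ (k ^ s) (show 0 < T + 4 by omega)
    exact this
  have hJ3 : (2 * T + 2) * (ρ + 1) ≤ J := by
    have h1 : (T + 4) * ((2 * T + 2) * (ρ + 1)) < (T + 4) * (J + 1) := by
      refine lt_of_le_of_lt ?_ hJ2
      rw [← mul_assoc]; exact hρ
    have h2 := lt_of_mul_lt_mul_left h1 (Nat.zero_le _)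
    omega
  have hJ0 : 0 < J := by
    have : 0 < (2 * T + 2) * (ρ + 1) := by positivity
    omega
  refine ⟨J, r0, hJ0, ?_⟩
  intro r hr t ht
  obtain ⟨α, β, hαβ⟩ := hrank r hr
  set A : ℕ := k ^ r with hA
  have hA0 : 0 < A := by rw [hA]; positivity
  set W0 : ℕ := t / A with hW0
  set o : ℕ := t % A with ho
  have hto : t = W0 * A + o := by
    rw [hW0, ho, mul_comm]; exact (Nat.div_add_mod t A).symm
  have hoA : o < A := Nat.mod_lt _ hA0
  have hW0le : W0 ≤ T * J := by
    rw [hW0]
    exact Nat.div_le_of_le_mul (by rw [mul_comm A]; exact ht)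
  have hbound : ∀ j : Fin J, W0 + j + 1 < k ^ s := by
    intro j
    have h1 := j.2
    have h2 : W0 + j + 1 ≤ T * J + J := by omega
    have h3 : T * J + J < (T + 4) * J := by nlinarith
    omega
  refine ⟨2 * ρ, by nlinarith, Bool × Fin ρ, inferInstance,
    fun i j => if i.1 then α (W0 + j + 1) i.2 else α (W0 + j) i.2, by simp, ?_⟩
  intro lam hlam x hx
  rcases Nat.lt_or_ge (o + x) A with h | h
  · have h1 : ∀ j : Fin J, (F (t + (j : ℕ) * A + x) : ℚ) =
        ∑ z, α (W0 + j) z * β z (o + x) := by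
      intro j
      rw [← hαβ (W0 + j) (by have := hbound j; omega) (o + x) h, hto]
      congr 2; ring
    calc ∑ j, lam j * (F (t + (j : ℕ) * A + x) : ℚ)
        = ∑ j, lam j * ∑ z, α (W0 + j) z * β z (o + x) := by
          apply Finset.sum_congr rfl
          intro j _; rw [h1 j]
      _ = ∑ z, (∑ j : Fin J, α (W0 + j) z * lam j) * β z (o + x) := by
          simp_rw [Finset.mul_sum, Finset.sum_mul]
          rw [Finset.sum_comm]
          apply Finset.sum_congr rfl
          intro z _
          apply Finset.sum_congr rfl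
          intro j _
          ring
      _ = 0 := by
          apply Finset.sum_eq_zero
          intro z _
          have h2 := hlam (false, z)
          simp only [Bool.false_eq_true, if_false] at h2
          rw [h2, zero_mul]
  · have h1 : ∀ j : Fin J, (F (t + (j : ℕ) * A + x) : ℚ) =
        ∑ z, α (W0 + j + 1) z * β z (o + x - A) := by
      intro j
      rw [← hαβ (W0 + j + 1) (hbound j) (o + x - A) (by omega), hto]
      congr 2
      have h2 : (W0 + (j : ℕ) + 1) * A = W0 * A + j * A + A := by ring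
      omega
    calc ∑ j, lam j * (F (t + (j : ℕ) * A + x) : ℚ)
        = ∑ j, lam j * ∑ z, α (W0 + j + 1) z * β z (o + x - A) := by
          apply Finset.sum_congr rfl
          intro j _; rw [h1 j]
      _ = ∑ z, (∑ j : Fin J, α (W0 + j + 1) z * lam j) * β z (o + x - A) := by
          simp_rw [Finset.mul_sum, Finset.sum_mul]
          rw [Finset.sum_comm]
          apply Finset.sum_congr rfl
          intro z _
          apply Finset.sum_congr rfl
          intro j _
          ring
      _ = 0 := by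
          apply Finset.sum_eq_zero
          intro z _
          have h2 := hlam (true, z)
          simp only [if_true] at h2
          rw [h2, zero_mul]

/-- combining the fibres over the second coordinate -/
lemma kill_fiber {ι κ : Type} [Fintype ι] [Fintype κ] (F : ℕ → ℤ) (τ : ι × κ → ℕ) (t m : ℕ)
    (σ : κ → ι → ℕ) (b : κ → ℕ) (h : ∀ q j, t + τ (j, q) = b q + σ q j) (e : κ → ℕ)
    (hk : ∀ q, Kill F (σ q) (b q) m (e q)) : Kill F τ t m (∑ q, e q) := by
  classical
  choose E hE a ha1 ha2 using hk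
  refine ⟨Σ q, E q, inferInstance, fun i p => if p.2 = i.1 then a i.1 i.2 p.1 else 0, ?_, ?_⟩
  · rw [Fintype.card_sigma]
    exact Finset.sum_le_sum fun q _ => ha1 q
  · intro lam hlam x hx
    rw [Fintype.sum_prod_type_right]
    apply Finset.sum_eq_zero
    intro q _
    have h1 := ha2 q (fun j => lam (j, q)) (by
      intro i
      have h2 := hlam ⟨q, i⟩
      rw [Fintype.sum_prod_type_right, Finset.sum_eq_single q] at h2
      · simpa using h2
      · intro q' _ hq'
        apply Finset.sum_eq_zero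
        intro j _
        simp [hq']
      · intro h3; exact absurd (Finset.mem_univ _) h3) x hx
    rw [← h1]
    apply Finset.sum_congr rfl
    intro j _
    rw [h q j]

/-- combining the fibres over the first coordinate -/
lemma kill_fiber' {ι κ : Type} [Fintype ι] [Fintype κ] (F : ℕ → ℤ) (τ : ι × κ → ℕ) (t m : ℕ)
    (σ : ι → κ → ℕ) (b : ι → ℕ) (h : ∀ j q, t + τ (j, q) = b j + σ j q) (e : ι → ℕ)
    (hk : ∀ j, Kill F (σ j) (b j) m (e j)) : Kill F τ t m (∑ j, e j) := by
  classical
  choose E hE a ha1 ha2 using hk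
  refine ⟨Σ j, E j, inferInstance, fun i p => if p.1 = i.1 then a i.1 i.2 p.2 else 0, ?_, ?_⟩
  · rw [Fintype.card_sigma]
    exact Finset.sum_le_sum fun q _ => ha1 q
  · intro lam hlam x hx
    rw [Fintype.sum_prod_type]
    apply Finset.sum_eq_zero
    intro j _
    have h1 := ha2 j (fun q => lam (j, q)) (by
      intro i
      have h2 := hlam ⟨j, i⟩
      rw [Fintype.sum_prod_type, Finset.sum_eq_single j] at h2
      · simpa using h2
      · intro q' _ hq'
        apply Finset.sum_eq_zero
        intro j _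
        simp [hq']
      · intro h3; exact absurd (Finset.mem_univ _) h3) x hx
    rw [← h1]
    apply Finset.sum_congr rfl
    intro q _
    rw [h j q]

lemma kill_mono {ι : Type} [Fintype ι] {F : ℕ → ℤ} {τ : ι → ℕ} {t m m' e : ℕ} (hm : m ≤ m')
    (h : Kill F τ t m' e) : Kill F τ t m e := by
  obtain ⟨E, hE, a, h1, h2⟩ := h
  exact ⟨E, hE, a, h1, fun lam hlam x hx => h2 lam hlam x (by omega)⟩

lemma exists_pow_between (k : ℕ) (hk : 2 ≤ k) (m : ℕ) (hm : 1 ≤ m) :
    ∃ r, m ≤ k ^ r ∧ k ^ r ≤ k * m := by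
  rcases Nat.lt_or_ge 1 m with h | h
  · refine ⟨Nat.clog k m, Nat.le_pow_clog (by omega) _, ?_⟩
    have h1 := Nat.pow_pred_clog_lt_self (show 1 < k by omega) h
    have h2 : 0 < Nat.clog k m := Nat.clog_pos (by omega) (by omega)
    obtain ⟨c, hc⟩ : ∃ c, Nat.clog k m = c + 1 := ⟨Nat.clog k m - 1, by omega⟩
    rw [hc] at h1 ⊢
    rw [pow_succ, mul_comm]
    exact Nat.mul_le_mul_left _ h1.le
  · have : m = 1 := by omega
    subst this
    exact ⟨0, by simp, by simp; omega⟩

/-- several thin sequences, killed at positions in a generalised arithmetic progression -/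
theorem multi : ∀ (L : List ((ℕ → ℤ) × ℕ)), (∀ p ∈ L, 2 ≤ p.2 ∧ Thin p.1 p.2) → ∀ T : ℕ,
    ∃ (ι : Type) (_ : Fintype ι) (C m0 : ℕ), Nonempty ι ∧ 0 < C ∧ ∀ m, m0 ≤ m → 1 ≤ m →
      ∃ τ : ι → ℕ, (∀ i j, i ≠ j → τ i + m ≤ τ j ∨ τ j + m ≤ τ i) ∧ (∀ j, τ j ≤ C * m) ∧
        ∀ p ∈ L, ∀ t, t ≤ T * C * m → ∃ e, T * e ≤ Fintype.card ι ∧ Kill p.1 τ t m e := by
  intro L
  induction L with
  | nil =>
    intro _ T
    refine ⟨Unit, inferInstance, 1, 0, inferInstance, one_pos, ?_⟩
    intro m _ _
    refine ⟨fun _ => 0, ?_, fun _ => Nat.zero_le _, ?_⟩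
    · intro i j hij; exact absurd (Subsingleton.elim i j) hij
    · intro p hp; simp at hp
  | cons p L ih =>
    intro hL T
    obtain ⟨F, k⟩ := p
    obtain ⟨hk, hF⟩ := hL (F, k) (by simp)
    obtain ⟨ι', hι', C', m0', hne, hC', hIH⟩ := ih (fun p hp => hL p (by simp [hp]))
      (2 * T * k + 1)
    obtain ⟨J, r0, hJ, hkill⟩ := kill_thin hk hF (T * (1 + C') * k + C' + T)
    have : Nonempty (Fin J) := ⟨⟨0, hJ⟩⟩
    refine ⟨Fin J × ι', inferInstance, (1 + C') * J * k, max m0' (k ^ r0), inferInstance,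
      by positivity, ?_⟩
    intro m hm hm1
    obtain ⟨r, hr1, hr2⟩ := exists_pow_between k hk m hm1
    have hr0 : r0 ≤ r := by
      have h1 : k ^ r0 ≤ k ^ r := le_trans (le_trans (le_max_right _ _) hm) hr1
      exact (Nat.pow_le_pow_iff_right (by omega)).1 h1
    have hmm : m ≤ J * k ^ r := by nlinarith
    obtain ⟨τ', hsep, hbd, hK⟩ := hIH (J * k ^ r)
      (le_trans (le_trans (le_max_left _ _) hm) hmm) (by omega)
    refine ⟨fun p => (p.1 : ℕ) * k ^ r + τ' p.2, ?_, ?_, ?_⟩
    · rintro ⟨j, q⟩ ⟨j', q'⟩ hne'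
      simp only
      by_cases hq : q = q'
      · subst hq
        have hjj : (j : ℕ) ≠ j' := by
          intro h
          apply hne'
          rw [Fin.ext h]
        rcases Nat.lt_or_gt_of_ne hjj with h | h
        · left
          have : ((j : ℕ) + 1) * k ^ r ≤ j' * k ^ r := Nat.mul_le_mul_right _ h
          nlinarith
        · right
          have : ((j' : ℕ) + 1) * k ^ r ≤ j * k ^ r := Nat.mul_le_mul_right _ h
          nlinarith
      · have h1 : ∀ j : Fin J, ((j : ℕ) + 1) * k ^ r ≤ J * k ^ r := fun j =>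
          Nat.mul_le_mul_right _ j.2
        rcases hsep q q' hq with h | h
        · left
          have := h1 j
          nlinarith
        · right
          have := h1 j'
          nlinarith
    · rintro ⟨j, q⟩
      simp only
      have h1 : ((j : ℕ) + 1) * k ^ r ≤ J * k ^ r := Nat.mul_le_mul_right _ j.2
      have h2 := hbd q
      have h3 : J * k ^ r ≤ J * (k * m) := Nat.mul_le_mul_left _ hr2
      calc (j : ℕ) * k ^ r + τ' q ≤ J * k ^ r + C' * (J * k ^ r) := by nlinarith
        _ = (1 + C') * (J * k ^ r) := by ring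
        _ ≤ (1 + C') * (J * (k * m)) := Nat.mul_le_mul_left _ h3
        _ = (1 + C') * J * k * m := by ring
    · intro p hp t ht
      have htb : t ≤ T * (1 + C') * k * (J * k ^ r) := by
        calc t ≤ T * ((1 + C') * J * k) * m := ht
          _ = T * (1 + C') * k * (J * m) := by ring
          _ ≤ T * (1 + C') * k * (J * k ^ r) := by gcongr
      rcases List.mem_cons.1 hp with rfl | hp'
      · -- the new function
        have h1 : ∀ q : ι', ∃ e, (T * (1 + C') * k + C' + T) * e ≤ J ∧
            Kill (ι := Fin J) F (fun j => (j : ℕ) * k ^ r) (t + τ' q) (k ^ r) e := by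
          intro q
          apply hkill r hr0
          have h2 := hbd q
          calc t + τ' q ≤ T * (1 + C') * k * (J * k ^ r) + C' * (J * k ^ r) := by omega
            _ ≤ (T * (1 + C') * k + C' + T) * J * k ^ r := by nlinarith
        choose e he1 he2 using h1
        refine ⟨∑ q, e q, ?_, ?_⟩
        · rw [Finset.mul_sum, Fintype.card_prod, Fintype.card_fin, mul_comm J]
          calc ∑ q, T * e q ≤ ∑ q : ι', J := by
                apply Finset.sum_le_sum
                intro q _
                refine le_trans ?_ (he1 q)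
                apply Nat.mul_le_mul_right
                omega
            _ = Fintype.card ι' * J := by simp
        · apply kill_fiber F _ t m (fun _ (j : Fin J) => (j : ℕ) * k ^ r) (fun q => t + τ' q)
            (by intro q j; simp only; ring) e
          intro q
          exact kill_mono hr1 (he2 q)
      · have h1 : ∀ j : Fin J, ∃ e, (2 * T * k + 1) * e ≤ Fintype.card ι' ∧
            Kill p.1 τ' (t + (j : ℕ) * k ^ r) (J * k ^ r) e := by
          intro j
          apply hK p hp'
          have h1 : ((j : ℕ) + 1) * k ^ r ≤ J * k ^ r := Nat.mul_le_mul_right _ j.2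
          have h2 : T * (1 + C') * k ≤ 2 * T * k * C' := by
            have : 1 + C' ≤ 2 * C' := by omega
            calc T * (1 + C') * k ≤ T * (2 * C') * k := by gcongr
              _ = 2 * T * k * C' := by ring
          calc t + (j : ℕ) * k ^ r ≤ T * (1 + C') * k * (J * k ^ r) + J * k ^ r := by nlinarith
            _ ≤ 2 * T * k * C' * (J * k ^ r) + C' * (J * k ^ r) := by
                apply Nat.add_le_add
                · exact Nat.mul_le_mul_right _ h2
                · nlinarith
            _ = (2 * T * k + 1) * C' * (J * k ^ r) := by ring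
        choose e he1 he2 using h1
        refine ⟨∑ j, e j, ?_, ?_⟩
        · rw [Finset.mul_sum, Fintype.card_prod, Fintype.card_fin]
          calc ∑ j, T * e j ≤ ∑ j : Fin J, Fintype.card ι' := by
                apply Finset.sum_le_sum
                intro j _
                refine le_trans ?_ (he1 j)
                apply Nat.mul_le_mul_right
                nlinarith
            _ = J * Fintype.card ι' := by simp
        · apply kill_fiber' p.1 _ t m (fun (_ : Fin J) q => τ' q) (fun j : Fin J => t + (j : ℕ) * k ^ r)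
            (by intro j q; simp only; ring) e
          intro j
          exact kill_mono hmm (he2 j)

/-- all functions of the list at once -/
lemma kill_list {ι : Type} [Fintype ι] (τ : ι → ℕ) (t m T : ℕ) : ∀ (L : List ((ℕ → ℤ) × ℕ)),
    (∀ p ∈ L, ∃ e, T * e ≤ Fintype.card ι ∧ Kill p.1 τ t m e) →
    ∃ (E : Type) (_ : Fintype E) (a : E → ι → ℚ), T * Fintype.card E ≤ L.length * Fintype.card ι ∧
      ∀ lam : ι → ℚ, (∀ i, ∑ j, a i j * lam j = 0) → ∀ p ∈ L, ∀ x, x < m →
        ∑ j, lam j * (p.1 (t + τ j + x) : ℚ) = 0 := by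
  intro L
  induction L with
  | nil =>
    intro _
    exact ⟨Empty, inferInstance, fun i => i.elim, by simp, by intro lam _ p hp; simp at hp⟩
  | cons p L ih =>
    intro h
    obtain ⟨E, hE, a, h1, h2⟩ := ih (fun p hp => h p (by simp [hp]))
    obtain ⟨e, he, E', hE', a', h1', h2'⟩ := h p (by simp)
    refine ⟨E ⊕ E', inferInstance, fun i => Sum.elim a a' i, ?_, ?_⟩
    · rw [Fintype.card_sum, List.length_cons]
      calc T * (Fintype.card E + Fintype.card E') = T * Fintype.card E + T * Fintype.card E' := by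
            ring
        _ ≤ L.length * Fintype.card ι + T * e := by
            apply Nat.add_le_add h1
            exact Nat.mul_le_mul_left _ h1'
        _ ≤ (L.length + 1) * Fintype.card ι := by nlinarith
    · intro lam hlam q hq x hx
      rcases List.mem_cons.1 hq with rfl | hq'
      · exact h2' lam (fun i => hlam (Sum.inr i)) x hx
      · exact h2 lam (fun i => hlam (Sum.inl i)) q hq' x hx

lemma exists_kernel {ι E : Type} [Fintype ι] [Fintype E] (a : E → ι → ℚ)
    (h : Fintype.card E < Fintype.card ι) : ∃ lam : ι → ℚ, lam ≠ 0 ∧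
      ∀ i, ∑ j, a i j * lam j = 0 := by
  classical
  let φ : (ι → ℚ) →ₗ[ℚ] (E → ℚ) := Matrix.toLin' (Matrix.of a)
  have h1 : LinearMap.ker φ ≠ ⊥ := by
    apply LinearMap.ker_ne_bot_of_finrank_lt
    rw [Module.finrank_fintype_fun_eq_card, Module.finrank_fintype_fun_eq_card]
    exact h
  obtain ⟨lam, hlam, hne⟩ := Submodule.exists_mem_ne_zero_of_ne_bot h1
  refine ⟨lam, hne, ?_⟩
  intro i
  have h2 := congrFun (LinearMap.mem_ker.1 hlam) i
  rw [Matrix.toLin'_apply, Matrix.mulVec] at h2
  exact h2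

/-- a common relation at two base points -/
theorem exists_relation (L : List ((ℕ → ℤ) × ℕ)) (hL : ∀ p ∈ L, 2 ≤ p.2 ∧ Thin p.1 p.2)
    (T : ℕ) :
    ∃ (ι : Type) (_ : Fintype ι) (C m0 : ℕ), Nonempty ι ∧ 0 < C ∧ ∀ m, m0 ≤ m → 1 ≤ m →
      ∃ τ : ι → ℕ, Function.Injective τ ∧ (∀ j, τ j ≤ C * m) ∧
        ∀ t1 t2, t1 ≤ T * C * m → t2 ≤ T * C * m → ∃ lam : ι → ℚ, lam ≠ 0 ∧
          ∀ p ∈ L, ∀ x, x < m → ∑ j, lam j * (p.1 (t1 + τ j + x) : ℚ) = 0 ∧
            ∑ j, lam j * (p.1 (t2 + τ j + x) : ℚ) = 0 := by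
  obtain ⟨ι, hι, C, m0, hne, hC, h⟩ := multi L hL (T + 2 * L.length + 1)
  refine ⟨ι, hι, C, m0, hne, hC, ?_⟩
  intro m hm hm1
  obtain ⟨τ, hsep, hbd, hK⟩ := h m hm hm1
  refine ⟨τ, ?_, hbd, ?_⟩
  · intro i j hij
    by_contra hne
    rcases hsep i j hne with h1 | h1 <;> omega
  · intro t1 t2 ht1 ht2
    have hTT : T * C * m ≤ (T + 2 * L.length + 1) * C * m := by
      gcongr; omega
    obtain ⟨E1, hE1, a1, h11, h12⟩ := kill_list τ t1 m (T + 2 * L.length + 1) L
      (fun p hp => hK p hp t1 (ht1.trans hTT))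
    obtain ⟨E2, hE2, a2, h21, h22⟩ := kill_list τ t2 m (T + 2 * L.length + 1) L
      (fun p hp => hK p hp t2 (ht2.trans hTT))
    obtain ⟨lam, hlam0, hlam⟩ := exists_kernel (E := E1 ⊕ E2) (fun i => Sum.elim a1 a2 i) (by
      rw [Fintype.card_sum]
      have hcard : 0 < Fintype.card ι := Fintype.card_pos
      have h1 : (T + 2 * L.length + 1) * (Fintype.card E1 + Fintype.card E2) ≤
          2 * L.length * Fintype.card ι := by
        calc _ = (T + 2 * L.length + 1) * Fintype.card E1 +
              (T + 2 * L.length + 1) * Fintype.card E2 := by ring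
          _ ≤ L.length * Fintype.card ι + L.length * Fintype.card ι := Nat.add_le_add h11 h21
          _ = 2 * L.length * Fintype.card ι := by ring
      have h2 : 2 * L.length * Fintype.card ι < (T + 2 * L.length + 1) * Fintype.card ι := by
        apply Nat.mul_lt_mul_of_pos_right _ hcard
        omega
      exact lt_of_mul_lt_mul_left (lt_of_le_of_lt h1 h2) (Nat.zero_le _))
    refine ⟨lam, hlam0, ?_⟩
    intro p hp x hx
    exact ⟨h12 lam (fun i => hlam (Sum.inl i)) p hp x hx,
      h22 lam (fun i => hlam (Sum.inr i)) p hp x hx⟩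

end Pool.Agent.H648R2.T
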