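import Mathlib
import Pool.Agent.H648R2.S.Digits
import Pool.Agent.H648R2.T.Core2
import Pool.Agent.H648R2.T.Rel
import Pool.Agent.H648R2.T.Thin

set_option autoImplicit false

open Finset Polynomial

namespace Pool.Agent.H648R2.T

open Pool.Agent.H648R2.S

lemma poly_le_pow_div {b : ℕ} (hb : 2 ≤ b) (A e C q : ℕ) (hq : 0 < q) :
    ∃ M : ℕ, ∀ m, M ≤ m → A * (C * m + 1) ^ e ≤ b ^ (m / q) := by
  obtain ⟨M, hM⟩ := lin_le_pow_div hb (A + C) (q * (e + 1)) (by positivity)
  refine ⟨M + 1, ?_⟩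
  intro m hm
  have h1 := hM m (by omega)
  have h2 : A ≤ (A + C) * m + 1 := by nlinarith
  have h3 : C * m + 1 ≤ (A + C) * m + 1 := by nlinarith
  calc A * (C * m + 1) ^ e ≤ ((A + C) * m + 1) * ((A + C) * m + 1) ^ e := by gcongr
    _ = ((A + C) * m + 1) ^ (e + 1) := by ring
    _ ≤ (b ^ (m / (q * (e + 1)))) ^ (e + 1) := by gcongr
    _ = b ^ (m / (q * (e + 1)) * (e + 1)) := by rw [← pow_mul]
    _ ≤ b ^ (m / q) := by
        apply Nat.pow_le_pow_right (by omega)
        rw [← Nat.div_div_eq_div_mul]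
        exact Nat.div_mul_le_self _ _

lemma act_sub' {R : Type*} [AddCommGroup R] (P Q : ℤ[X]) (f : ℕ → R) (n : ℕ) :
    act (P - Q) f n = act P f n - act Q f n := by
  unfold act
  rw [map_sub, LinearMap.sub_apply, Pi.sub_apply]

lemma sp_coeff_le {D : ℕ} (t : Fin D → ℕ) (ht : Function.Injective t) (lam : Fin D → ℤ) (H : ℤ)
    (hH0 : 0 ≤ H) (hH : ∀ j, |lam j| ≤ H) (i : ℕ) : |(sp t lam).coeff i| ≤ H := by
  by_cases hi : i ∈ (sp t lam).support
  · obtain ⟨j, _, rfl⟩ := Finset.mem_image.1 (sp_supp t lam hi)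
    rw [sp_coeff_self t ht]; exact hH j
  · rw [notMem_support_iff.1 hi, abs_zero]; exact hH0

/-- the main theorem on sequences -/
theorem main_seq (b : ℕ) (hb : 2 ≤ b) (ξ : ℝ) (hξ : IsAlgebraic ℚ ξ) (hirr : Irrational ξ)
    (L : List ((ℕ → ℤ) × ℕ)) (hL : ∀ p ∈ L, 2 ≤ p.2 ∧ Thin p.1 p.2) (G c : ℕ → ℤ) (x : ℕ → ℝ)
    (hc : ∀ n, c n = (L.map (fun p => p.1 n)).sum + G n) (K : ℕ)
    (hcK : ∀ n, |c n| ≤ ((K * (n + 1) ^ K : ℕ) : ℤ)) (hxK : ∀ n, |x n| ≤ ((K * (n + 1) ^ K : ℕ) : ℝ))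
    (hrec : ∀ n, (b : ℝ) * x n = c (n + 1) + x (n + 1))
    (hint : ∀ n, ∃ k : ℤ, ξ * (b : ℝ) ^ n - x n = k) (C0 : ℕ) :
    ∃ N, ∀ m, N ≤ m → ∀ t1 t2, t1 < t2 → t2 ≤ C0 * m → ∃ i, i < m ∧ G (t1 + i) ≠ G (t2 + i) := by
  obtain ⟨ι, hι, C, m0, hne, hC, hrel⟩ := exists_relation L hL (6 * C0 + 1)
  set D : ℕ := Fintype.card ι with hD
  let e : Fin D ≃ ι := (Fintype.equivFin ι).symm
  set C2 : ℕ := 6 * C0 * C + C with hC2
  obtain ⟨q, M, hq, hcore⟩ := core2 b hb ξ hξ hirr (2 * D) C2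
  obtain ⟨M1, hM1⟩ := poly_le_pow_div hb K K (C2 + 2) q hq
  obtain ⟨M2, hM2⟩ := poly_le_pow_div hb (2 * (D * (2 * K + 1)) ^ D) (K * D) (C2 + 2) q hq
  refine ⟨(C + 2) * (m0 + M + M1 + M2 + 1), ?_⟩
  intro m hm t1 t2 ht12 ht2
  by_contra hcon
  push Not at hcon
  obtain ⟨m', hm'⟩ : ∃ m', m' = m / (C + 2) := ⟨_, rfl⟩
  have hm'1 : m0 + M + M1 + M2 + 1 ≤ m' := by
    rw [hm', Nat.le_div_iff_mul_le (by omega), mul_comm]; exact hm
  have hm'2 : (C + 2) * m' ≤ m := by rw [hm']; exact Nat.mul_div_le _ _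
  have hm'3 : m < (C + 2) * (m' + 1) := by
    rw [hm']; exact Nat.lt_mul_div_succ _ (by omega)
  have hm'4 : m ≤ 6 * C * m' := by nlinarith
  obtain ⟨τ, hτinj, hτbd, hτ⟩ := hrel m' (by omega) (by omega)
  have ht2' : t2 ≤ 6 * C0 * C * m' := by
    calc t2 ≤ C0 * m := ht2
      _ ≤ C0 * (6 * C * m') := Nat.mul_le_mul_left _ hm'4
      _ = 6 * C0 * C * m' := by ring
  have ht2'' : t2 + 1 ≤ (6 * C0 + 1) * C * m' := by
    have : (6 * C0 + 1) * C * m' = 6 * C0 * C * m' + C * m' := by ring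
    have h1 : 1 ≤ C * m' := Nat.mul_pos hC (by omega)
    omega
  obtain ⟨lam, hlam0, hlam⟩ := hτ (t1 + 1) (t2 + 1) (by omega) ht2''
  -- the relation between windows of `c`
  set v : Fin D → Fin m' → ℤ := fun j i =>
    c (t2 + 1 + τ (e j) + i) - c (t1 + 1 + τ (e j) + i) with hv
  have hidx : ∀ (j : Fin D) (i : Fin m'), t2 + 1 + τ (e j) + i ≤ (C2 + 2) * m' := by
    intro j i
    have h1 := hτbd (e j)
    have h2 := i.2
    have h3 : (C2 + 2) * m' = 6 * C0 * C * m' + C * m' + 2 * m' := by rw [hC2]; ring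
    omega
  have hvrel : ∀ i, ∑ j, lam (e j) * (v j i : ℚ) = 0 := by
    intro i
    have h1 : ∑ j, lam (e j) * (v j i : ℚ) =
        ∑ j : ι, lam j * ((c (t2 + 1 + τ j + i) : ℚ) - c (t1 + 1 + τ j + i)) := by
      rw [← Equiv.sum_comp e (fun j => lam j * ((c (t2 + 1 + τ j + i) : ℚ) -
        c (t1 + 1 + τ j + i)))]
      apply Finset.sum_congr rfl
      intro j _
      simp only [hv]
      push_cast
      ring
    rw [h1]
    have hG : ∀ j : ι, G (t2 + 1 + τ j + i) = G (t1 + 1 + τ j + i) := by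
      intro j
      have h2 := hτbd j
      have h3 := i.2
      have h4 : (C + 2) * m' = C * m' + 2 * m' := by ring
      have h5 := hcon (1 + τ j + i) (by omega)
      have h6 : t2 + 1 + τ j + i = t2 + (1 + τ j + i) := by ring
      have h7 : t1 + 1 + τ j + i = t1 + (1 + τ j + i) := by ring
      rw [h6, h7, h5]
    have h2 : ∀ (L' : List ((ℕ → ℤ) × ℕ)), (∀ p ∈ L', p ∈ L) →
        ∑ j : ι, lam j * (((L'.map (fun p => p.1 (t2 + 1 + τ j + i))).sum : ℤ) -
          ((L'.map (fun p => p.1 (t1 + 1 + τ j + i))).sum : ℤ) : ℚ) = 0 := by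
      intro L'
      induction L' with
      | nil => intro _; simp
      | cons p L' ih =>
        intro hp
        have h3 := ih (fun p hp' => hp p (by simp [hp']))
        obtain ⟨h4, h5⟩ := hlam p (hp p (by simp)) i i.2
        have h6 : ∀ j : ι, lam j * ((((p :: L').map (fun p => p.1 (t2 + 1 + τ j + i))).sum : ℤ) -
            (((p :: L').map (fun p => p.1 (t1 + 1 + τ j + i))).sum : ℤ) : ℚ) =
            lam j * (p.1 (t2 + 1 + τ j + i) : ℚ) - lam j * (p.1 (t1 + 1 + τ j + i) : ℚ) +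
            lam j * (((L'.map (fun p => p.1 (t2 + 1 + τ j + i))).sum : ℤ) -
              ((L'.map (fun p => p.1 (t1 + 1 + τ j + i))).sum : ℤ) : ℚ) := by
          intro j
          simp only [List.map_cons, List.sum_cons]
          push_cast
          ring
        rw [Finset.sum_congr rfl (fun j _ => h6 j), Finset.sum_add_distrib,
          Finset.sum_sub_distrib, h3, h4, h5]
        simp
    rw [← h2 L (fun p hp => hp)]
    apply Finset.sum_congr rfl
    intro j _
    rw [hc, hc, hG j]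
    push_cast
    ring
  set B : ℕ := (2 * K + 1) * ((C2 + 2) * m' + 1) ^ K with hB
  have hcb : ∀ n, n ≤ (C2 + 2) * m' → |c n| ≤ ((K * ((C2 + 2) * m' + 1) ^ K : ℕ) : ℤ) := by
    intro n hn
    refine (hcK n).trans ?_
    exact_mod_cast Nat.mul_le_mul_left _ (Nat.pow_le_pow_left (by omega) _)
  obtain ⟨g, hg0, hgH, hg⟩ := rel_bound m' v B (by
      rw [hB]; exact Nat.mul_pos (by omega) (by positivity)) (by
      intro j i
      simp only [hv]
      have h1 := abs_sub (c (t2 + 1 + τ (e j) + i)) (c (t1 + 1 + τ (e j) + i))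
      have h2 := hcb _ (hidx j i)
      have h3 := hcb (t1 + 1 + τ (e j) + i) (by have := hidx j i; omega)
      have h4 : (2 * (K * ((C2 + 2) * m' + 1) ^ K : ℕ) : ℤ) ≤ B := by
        have : 2 * (K * ((C2 + 2) * m' + 1) ^ K) ≤ B := by
          rw [hB]
          nlinarith [Nat.zero_le (((C2 + 2) * m' + 1) ^ K)]
        exact_mod_cast this
      linarith) (fun j => lam (e j))
      (by
        intro h
        apply hlam0
        funext j
        have := congrFun h (e.symm j)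
        simpa using this) hvrel
  rw [Fintype.card_fin] at hgH
  -- the polynomial
  set t : Fin D → ℕ := fun j => τ (e j) with ht
  have htinj : Function.Injective t := hτinj.comp e.injective
  set Λ : ℤ[X] := sp t g with hΛ
  have hΛ0 : Λ ≠ 0 := by
    intro h0
    apply hg0
    funext j
    rw [← sp_coeff_self t htinj g j, ← hΛ, h0]; simp
  have hXne : (X ^ t2 - X ^ t1 : ℤ[X]) ≠ 0 := by
    intro h0
    have h5 := congrArg (fun q => Polynomial.coeff q t2) h0
    simp only [coeff_sub, coeff_X_pow, if_true, coeff_zero] at h5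
    rw [if_neg (by omega)] at h5
    simp at h5
  have hXsupp : (X ^ t2 - X ^ t1 : ℤ[X]).support.card ≤ 2 := by
    have h5 : (X ^ t2 - X ^ t1 : ℤ[X]).support ⊆ {t2, t1} := by
      intro i hi
      rw [mem_support_iff, coeff_sub, coeff_X_pow, coeff_X_pow] at hi
      by_contra hcon'
      simp only [Finset.mem_insert, Finset.mem_singleton, not_or] at hcon'
      apply hi
      rw [if_neg hcon'.1, if_neg hcon'.2]; simp
    exact (Finset.card_le_card h5).trans Finset.card_le_two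
  have hΛle : ∀ i, |Λ.coeff i| ≤ (((D * B) ^ D : ℕ) : ℤ) :=
    sp_coeff_le t htinj g _ (by positivity) hgH
  have hΛdeg : Λ.natDegree ≤ C * m' := sp_natDegree t g _ (fun j => hτbd (e j))
  have hbig : 2 * (D * B) ^ D ≤ b ^ (m' / q) := by
    refine le_trans (le_of_eq ?_) (hM2 m' (by omega))
    rw [hB, ← mul_assoc D, mul_pow (D * (2 * K + 1)), ← pow_mul]
    ring
  obtain ⟨n, hn1, hn2, hn3⟩ := hcore c x hrec hint m' (m' / q) (by omega) (Nat.mul_div_le _ _)
    (by
      intro n hn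
      refine (hcb n hn).trans ?_
      exact_mod_cast hM1 m' (by omega))
    (by
      intro n hn
      refine (hxK n).trans ?_
      have h1 : K * (n + 1) ^ K ≤ b ^ (m' / q) := by
        refine le_trans ?_ (hM1 m' (by omega))
        exact Nat.mul_le_mul_left _ (Nat.pow_le_pow_left (by omega) _)
      exact_mod_cast h1)
    ((X ^ t2 - X ^ t1) * Λ) (mul_ne_zero hXne hΛ0)
    (by
      refine (support_mul_card _ _).trans ?_
      exact Nat.mul_le_mul hXsupp (sp_supp_card t g))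
    (by
      intro i
      rw [sub_mul, coeff_sub, coeff_X_pow_mul', coeff_X_pow_mul']
      have h1 : ∀ (u : ℕ), |(if u ≤ i then Λ.coeff (i - u) else 0)| ≤
          (((D * B) ^ D : ℕ) : ℤ) := by
        intro u
        split_ifs
        · exact hΛle _
        · rw [abs_zero]; positivity
      have h2 := abs_sub (if t2 ≤ i then Λ.coeff (i - t2) else 0)
        (if t1 ≤ i then Λ.coeff (i - t1) else 0)
      have h3 : (2 * ((D * B) ^ D : ℕ) : ℤ) ≤ ((b ^ (m' / q) : ℕ) : ℤ) := by exact_mod_cast hbig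
      linarith [h1 t1, h1 t2])
    (by
      refine natDegree_mul_le.trans ?_
      have h1 : (X ^ t2 - X ^ t1 : ℤ[X]).natDegree ≤ t2 := by
        refine (natDegree_sub_le _ _).trans ?_
        rw [natDegree_X_pow, natDegree_X_pow]
        omega
      have h3 : C2 * m' = 6 * C0 * C * m' + C * m' := by rw [hC2]; ring
      omega)
  apply hn3
  rw [sub_mul, act_sub', act_X_pow_mul, act_X_pow_mul, hΛ, sp_act, sp_act]
  have h1 := hg ⟨n - 1, by omega⟩
  rw [← Finset.sum_sub_distrib, ← h1]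
  apply Finset.sum_congr rfl
  intro j _
  simp only [hv, ht]
  rw [← mul_sub]
  have h2 : n + t2 + τ (e j) = t2 + 1 + τ (e j) + (n - 1) := by omega
  have h3 : n + t1 + τ (e j) = t1 + 1 + τ (e j) + (n - 1) := by omega
  rw [h2, h3]

end Pool.Agent.H648R2.T
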