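import Mathlib
import Pool.Agent.H648R2.T.MainSeq

set_option autoImplicit false

open Finset

namespace Pool.Agent.H648R2.T

/-- polynomial growth -/
def PolyB (F : ℕ → ℤ) : Prop := ∃ K : ℕ, ∀ n, |F n| ≤ ((K * (n + 1) ^ K : ℕ) : ℤ)

/-- the real number `∑ F(n) b^(-n)` -/
noncomputable def val (b : ℕ) (F : ℕ → ℤ) : ℝ := ∑' n, (F n : ℝ) / (b : ℝ) ^ n

lemma poly_mono {K K' n : ℕ} (h : K ≤ K') : K * (n + 1) ^ K ≤ K' * (n + 1) ^ K' :=
  Nat.mul_le_mul h (Nat.pow_le_pow_right (by omega) h)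

lemma PolyB.of_bdd {F : ℕ → ℤ} {B : ℕ} (h : ∀ n, |F n| ≤ B) : PolyB F := by
  refine ⟨B, fun n => (h n).trans ?_⟩
  have h1 : B ≤ B * (n + 1) ^ B := Nat.le_mul_of_pos_right _ (by positivity)
  exact_mod_cast h1

lemma PolyB.add {F G : ℕ → ℤ} (hF : PolyB F) (hG : PolyB G) : PolyB (fun n => F n + G n) := by
  obtain ⟨K, hK⟩ := hF
  obtain ⟨K', hK'⟩ := hG
  refine ⟨K + K', fun n => ?_⟩
  have h1 := abs_add_le (F n) (G n)
  have h2 : K * (n + 1) ^ K + K' * (n + 1) ^ K' ≤ (K + K') * (n + 1) ^ (K + K') := by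
    rw [Nat.add_mul]
    exact Nat.add_le_add (Nat.mul_le_mul_left _ (Nat.pow_le_pow_right (by omega) (by omega)))
      (Nat.mul_le_mul_left _ (Nat.pow_le_pow_right (by omega) (by omega)))
  have h3 := hK n
  have h4 := hK' n
  have h5 : ((K * (n + 1) ^ K : ℕ) : ℤ) + ((K' * (n + 1) ^ K' : ℕ) : ℤ) ≤
      (((K + K') * (n + 1) ^ (K + K') : ℕ) : ℤ) := by exact_mod_cast h2
  linarith

lemma PolyB.smul {F : ℕ → ℤ} (hF : PolyB F) (a : ℤ) : PolyB (fun n => a * F n) := by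
  obtain ⟨K, hK⟩ := hF
  refine ⟨K + a.natAbs * K, fun n => ?_⟩
  rw [abs_mul, Int.abs_eq_natAbs a]
  have h1 := hK n
  calc (a.natAbs : ℤ) * |F n| ≤ a.natAbs * ((K * (n + 1) ^ K : ℕ) : ℤ) :=
        mul_le_mul_of_nonneg_left h1 (by positivity)
    _ = ((a.natAbs * K * (n + 1) ^ K : ℕ) : ℤ) := by push_cast; ring
    _ ≤ _ := by
      have : a.natAbs * K * (n + 1) ^ K ≤ (K + a.natAbs * K) * (n + 1) ^ (K + a.natAbs * K) :=
        Nat.mul_le_mul (by omega) (Nat.pow_le_pow_right (by omega) (by omega))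
      exact_mod_cast this

lemma PolyB.sum {ι : Type*} (s : Finset ι) (F : ι → ℕ → ℤ) (h : ∀ i ∈ s, PolyB (F i)) :
    PolyB (fun n => ∑ i ∈ s, F i n) := by
  classical
  induction s using Finset.induction_on with
  | empty => exact ⟨0, by intro n; simp⟩
  | insert a s ha ih =>
    have h1 := (h a (by simp)).add (ih fun i hi => h i (by simp [hi]))
    have h2 : (fun n => ∑ i ∈ insert a s, F i n) = fun n => F a n + ∑ i ∈ s, F i n := by
      funext n; rw [Finset.sum_insert ha]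
    rw [h2]; exact h1

lemma summable_poly {b : ℕ} (hb : 2 ≤ b) (K : ℕ) :
    Summable (fun n : ℕ => ((n : ℝ) + 2) ^ K / (b : ℝ) ^ n) := by
  have hbR : (2 : ℝ) ≤ b := by exact_mod_cast hb
  have h1 : ‖(1 / (b : ℝ))‖ < 1 := by
    rw [Real.norm_of_nonneg (by positivity), div_lt_one (by linarith)]
    linarith
  have h2 := summable_pow_mul_geometric_of_norm_lt_one K h1
  have h3 := (summable_nat_add_iff 2).2 h2
  have h4 := h3.mul_right ((b : ℝ) ^ 2)
  refine h4.congr ?_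
  intro n
  push_cast
  have hb0 : (b : ℝ) ≠ 0 := by linarith
  rw [one_div, inv_pow, pow_add]
  field_simp

lemma PolyB.summable {b : ℕ} (hb : 2 ≤ b) {F : ℕ → ℤ} (hF : PolyB F) :
    Summable (fun n => (F n : ℝ) / (b : ℝ) ^ n) := by
  obtain ⟨K, hK⟩ := hF
  have hbR : (2 : ℝ) ≤ b := by exact_mod_cast hb
  apply Summable.of_norm_bounded (g := fun n : ℕ => (K : ℝ) * (((n : ℝ) + 2) ^ K / (b : ℝ) ^ n))
  · exact (summable_poly hb K).mul_left _
  · intro n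
    rw [norm_div, norm_pow, Real.norm_natCast, ← mul_div_assoc, Real.norm_eq_abs]
    apply div_le_div_of_nonneg_right _ (by positivity)
    have h1 : (|F n| : ℝ) ≤ ((K * (n + 1) ^ K : ℕ) : ℝ) := by exact_mod_cast hK n
    refine h1.trans ?_
    push_cast
    gcongr
    linarith

/-- the scaled tail of the series -/
noncomputable def tail (b : ℕ) (c : ℕ → ℤ) (n : ℕ) : ℝ :=
  (b : ℝ) ^ n * (val b c - ∑ i ∈ range (n + 1), (c i : ℝ) / (b : ℝ) ^ i)

lemma tail_rec {b : ℕ} (hb : 2 ≤ b) (c : ℕ → ℤ) (n : ℕ) :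
    (b : ℝ) * tail b c n = c (n + 1) + tail b c (n + 1) := by
  have hbR : (2 : ℝ) ≤ b := by exact_mod_cast hb
  have hb0 : (b : ℝ) ≠ 0 := by linarith
  unfold tail
  rw [Finset.sum_range_succ _ (n + 1)]
  have h1 : (b : ℝ) ^ (n + 1) ≠ 0 := pow_ne_zero _ hb0
  field_simp
  ring

lemma tail_int {b : ℕ} (hb : 2 ≤ b) (c : ℕ → ℤ) (n : ℕ) :
    ∃ k : ℤ, val b c * (b : ℝ) ^ n - tail b c n = k := by
  have hbR : (2 : ℝ) ≤ b := by exact_mod_cast hb
  have hb0 : (b : ℝ) ≠ 0 := by linarith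
  refine ⟨∑ i ∈ range (n + 1), c i * (b : ℤ) ^ (n - i), ?_⟩
  unfold tail
  have h1 : val b c * (b : ℝ) ^ n - (b : ℝ) ^ n * (val b c - ∑ i ∈ range (n + 1),
      (c i : ℝ) / (b : ℝ) ^ i) = (b : ℝ) ^ n * ∑ i ∈ range (n + 1), (c i : ℝ) / (b : ℝ) ^ i := by
    ring
  rw [h1, Finset.mul_sum]
  push_cast
  apply Finset.sum_congr rfl
  intro i hi
  have h2 : i ≤ n := by
    have := Finset.mem_range.1 hi
    omega
  have h3 : (b : ℝ) ^ n = (b : ℝ) ^ (n - i) * (b : ℝ) ^ i := by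
    rw [← pow_add]; congr 1; omega
  rw [h3]
  have h4 : (b : ℝ) ^ i ≠ 0 := pow_ne_zero _ hb0
  field_simp

lemma tail_bound {b : ℕ} (hb : 2 ≤ b) {c : ℕ → ℤ} (hc : PolyB c) :
    ∃ K : ℕ, ∀ n, |tail b c n| ≤ ((K * (n + 1) ^ K : ℕ) : ℝ) := by
  have hsum := hc.summable hb
  obtain ⟨K, hK⟩ := hc
  have hbR : (2 : ℝ) ≤ b := by exact_mod_cast hb
  have hb0 : (b : ℝ) ≠ 0 := by linarith
  obtain ⟨K', hK'⟩ := exists_nat_ge ((K : ℝ) * ∑' n : ℕ, ((n : ℝ) + 2) ^ K / (b : ℝ) ^ n)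
  refine ⟨K + K', fun n => ?_⟩
  have h1 : tail b c n = ∑' i, (c (i + (n + 1)) : ℝ) / (b : ℝ) ^ (i + 1) := by
    unfold tail
    have h2 := hsum.sum_add_tsum_nat_add (n + 1)
    have h3 : val b c - ∑ i ∈ range (n + 1), (c i : ℝ) / (b : ℝ) ^ i =
        ∑' i, (c (i + (n + 1)) : ℝ) / (b : ℝ) ^ (i + (n + 1)) := by
      unfold val
      rw [← h2]; ring
    rw [h3, ← tsum_mul_left]
    apply tsum_congr
    intro i
    have h4 : (b : ℝ) ^ (i + (n + 1)) = (b : ℝ) ^ n * (b : ℝ) ^ (i + 1) := by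
      rw [← pow_add]; congr 1; omega
    rw [h4]
    have h5 : (b : ℝ) ^ n ≠ 0 := pow_ne_zero _ hb0
    field_simp
  have h2 : ∀ i : ℕ, |(c (i + (n + 1)) : ℝ) / (b : ℝ) ^ (i + 1)| ≤
      ((n : ℝ) + 1) ^ K * (K * (((i : ℝ) + 2) ^ K / (b : ℝ) ^ i)) := by
    intro i
    rw [abs_div, abs_of_pos (by positivity : (0 : ℝ) < (b : ℝ) ^ (i + 1))]
    have h3 : |(c (i + (n + 1)) : ℝ)| ≤ ((K * (i + (n + 1) + 1) ^ K : ℕ) : ℝ) := by
      exact_mod_cast hK (i + (n + 1))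
    have h4 : ((K * (i + (n + 1) + 1) ^ K : ℕ) : ℝ) ≤
        K * ((((n : ℝ) + 1) * ((i : ℝ) + 2)) ^ K) := by
      push_cast
      gcongr
      have : (0 : ℝ) ≤ n := Nat.cast_nonneg _
      have : (0 : ℝ) ≤ i := Nat.cast_nonneg _
      nlinarith
    have h5 : (b : ℝ) ^ i ≤ (b : ℝ) ^ (i + 1) := pow_le_pow_right₀ (by linarith) (by omega)
    calc |(c (i + (n + 1)) : ℝ)| / (b : ℝ) ^ (i + 1)
        ≤ (K * ((((n : ℝ) + 1) * ((i : ℝ) + 2)) ^ K)) / (b : ℝ) ^ i := by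
          apply div_le_div₀ (by positivity) (h3.trans h4) (by positivity) h5
      _ = ((n : ℝ) + 1) ^ K * (K * (((i : ℝ) + 2) ^ K / (b : ℝ) ^ i)) := by
          rw [mul_pow]; ring
  have hs2 : Summable (fun i : ℕ => ((n : ℝ) + 1) ^ K * (K * (((i : ℝ) + 2) ^ K / (b : ℝ) ^ i))) :=
    ((summable_poly hb K).mul_left _).mul_left _
  have h3 : |tail b c n| ≤ ∑' i : ℕ, ((n : ℝ) + 1) ^ K * (K * (((i : ℝ) + 2) ^ K / (b : ℝ) ^ i)) := by
    rw [h1, ← Real.norm_eq_abs]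
    exact tsum_of_norm_bounded hs2.hasSum (fun i => by rw [Real.norm_eq_abs]; exact h2 i)
  rw [tsum_mul_left, tsum_mul_left] at h3
  refine h3.trans ?_
  push_cast
  calc ((n : ℝ) + 1) ^ K * (K * ∑' i : ℕ, (((i : ℝ) + 2) ^ K / (b : ℝ) ^ i))
      ≤ ((n : ℝ) + 1) ^ K * K' := by gcongr
    _ ≤ ((n : ℝ) + 1) ^ (K + K') * (K + K') := by
        have h5 : (1 : ℝ) ≤ (n : ℝ) + 1 := by
          have : (0 : ℝ) ≤ n := Nat.cast_nonneg _
          linarith
        have h6 : ((n : ℝ) + 1) ^ K ≤ ((n : ℝ) + 1) ^ (K + K') :=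
          pow_le_pow_right₀ h5 (by omega)
        have h7 : (0 : ℝ) ≤ K := Nat.cast_nonneg _
        apply mul_le_mul h6 (by linarith) (Nat.cast_nonneg _) (by positivity)
    _ = ((K : ℝ) + K') * ((n : ℝ) + 1) ^ (K + K') := by ring

lemma RankLE.smul {F : ℕ → ℤ} {k s r ρ : ℕ} (h : RankLE F k s r ρ) (a : ℤ) :
    RankLE (fun n => a * F n) k s r ρ := by
  obtain ⟨α, β, hαβ⟩ := h
  refine ⟨fun W z => a * α W z, β, ?_⟩
  intro W hW u hu
  push_cast
  rw [hαβ W hW u hu, Finset.mul_sum]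
  apply Finset.sum_congr rfl
  intro z _; ring

lemma Thin.smul {F : ℕ → ℤ} {k : ℕ} (h : Thin F k) (a : ℤ) : Thin (fun n => a * F n) k := by
  intro T
  obtain ⟨s, ρ, r0, h1, h2⟩ := h T
  exact ⟨s, ρ, r0, h1, fun r hr => (h2 r hr).smul a⟩

/-- The theorem for series: thin sequences do not help. -/
theorem main_series (b : ℕ) (hb : 2 ≤ b) (ξ : ℝ) (hξ : IsAlgebraic ℚ ξ) (hirr : Irrational ξ)
    {ι : Type} [Fintype ι] (k : ι → ℕ) (hk : ∀ i, 2 ≤ k i) (F : ι → ℕ → ℤ)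
    (hF : ∀ i, Thin (F i) (k i)) (hFp : ∀ i, PolyB (F i)) (R : ι → ℚ) (G : ℕ → ℤ) (hG : PolyB G)
    (h : ξ = ∑ i, (R i : ℝ) * val b (F i) + val b G) (C0 : ℕ) :
    ∃ N, ∀ m, N ≤ m → ∀ s t, s < t → t ≤ C0 * m → ∃ i, i < m ∧ G (s + i) ≠ G (t + i) := by
  classical
  have hbR : (2 : ℝ) ≤ b := by exact_mod_cast hb
  set den : ℕ := ∏ i, (R i).den with hden
  have hden0 : den ≠ 0 := by
    rw [hden, Finset.prod_ne_zero_iff]
    intro i _; exact (R i).den_nz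
  have hR : ∀ i, ∃ a : ℤ, (a : ℚ) = den * R i := by
    intro i
    refine ⟨(∏ j ∈ Finset.univ.erase i, ((R j).den : ℤ)) * (R i).num, ?_⟩
    have h1 : (den : ℚ) = (∏ j ∈ Finset.univ.erase i, ((R j).den : ℚ)) * (R i).den := by
      rw [hden]
      push_cast
      rw [Finset.prod_erase_mul _ _ (Finset.mem_univ i)]
    rw [h1]
    push_cast
    rw [mul_assoc, Rat.den_mul_eq_num]
  choose R' hR' using hR
  set L : List ((ℕ → ℤ) × ℕ) :=
    (Finset.univ : Finset ι).toList.map (fun i => ((fun n => R' i * F i n), k i)) with hL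
  set c : ℕ → ℤ := fun n => ∑ i, R' i * F i n + den * G n with hc
  have hcp : PolyB c := by
    rw [hc]
    exact (PolyB.sum Finset.univ (fun i n => R' i * F i n) (fun i _ => (hFp i).smul _)).add
      (hG.smul _)
  have hval : val b c = den * ξ := by
    have h1 : ∀ i, Summable (fun n => (R' i : ℝ) * ((F i n : ℝ) / (b : ℝ) ^ n)) := fun i =>
      ((hFp i).summable hb).mul_left _
    have h2 : Summable (fun n => (den : ℝ) * ((G n : ℝ) / (b : ℝ) ^ n)) :=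
      (hG.summable hb).mul_left _
    have h3 : val b c = ∑' n, (∑ i, (R' i : ℝ) * ((F i n : ℝ) / (b : ℝ) ^ n) +
        (den : ℝ) * ((G n : ℝ) / (b : ℝ) ^ n)) := by
      unfold val
      apply tsum_congr
      intro n
      simp only [hc]
      push_cast
      rw [add_div, Finset.sum_div]
      congr 1
      · apply Finset.sum_congr rfl
        intro i _; ring
      · ring
    have hsum : Summable (fun n => ∑ i, (R' i : ℝ) * ((F i n : ℝ) / (b : ℝ) ^ n)) :=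
      summable_sum fun i _ => h1 i
    rw [h3, hsum.tsum_add h2, Summable.tsum_finsetSum (fun i _ => h1 i), h, mul_add,
      Finset.mul_sum, tsum_mul_left]
    congr 1
    apply Finset.sum_congr rfl
    intro i _
    rw [tsum_mul_left]
    have h4 : (R' i : ℝ) = den * (R i : ℝ) := by exact_mod_cast hR' i
    rw [h4]
    unfold val
    ring
  have hξ' : IsAlgebraic ℚ ((den : ℝ) * ξ) := by
    have h1 : (den : ℝ) * ξ = algebraMap ℚ ℝ (den : ℚ) * ξ := by simp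
    rw [h1]
    exact (isAlgebraic_algebraMap _).mul hξ
  have hirr' : Irrational ((den : ℝ) * ξ) := hirr.natCast_mul hden0
  obtain ⟨K, hK⟩ := hcp
  obtain ⟨K', hK'⟩ := tail_bound hb (c := c) ⟨K, hK⟩
  obtain ⟨N, hN⟩ := main_seq b hb ((den : ℝ) * ξ) hξ' hirr' L
    (by
      intro p hp
      rw [hL, List.mem_map] at hp
      obtain ⟨i, _, rfl⟩ := hp
      exact ⟨hk i, (hF i).smul _⟩)
    (fun n => den * G n) c (tail b c)
    (by
      intro n
      simp only [hc, hL, List.map_map]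
      congr 1
      exact (Finset.sum_map_toList Finset.univ (fun i => R' i * F i n)).symm)
    (K + K')
    (by
      intro n
      refine (hK n).trans ?_
      exact_mod_cast poly_mono (by omega))
    (by
      intro n
      refine (hK' n).trans ?_
      exact_mod_cast poly_mono (by omega))
    (tail_rec hb c)
    (by
      intro n
      rw [← hval]
      exact tail_int hb c n) C0
  refine ⟨N, ?_⟩
  intro m hm s t hst ht
  obtain ⟨i, hi, hne⟩ := hN m hm s t hst ht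
  refine ⟨i, hi, ?_⟩
  intro h0
  apply hne
  rw [h0]

end Pool.Agent.H648R2.T
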