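import Mathlib
import Pool.Agent.H648R2.T.Series

set_option autoImplicit false

open Finset

namespace Pool.Agent.H648R2.T

/-- the Cauchy product -/
def conv (F G : ℕ → ℤ) (n : ℕ) : ℤ := ∑ p ∈ antidiagonal n, F p.1 * G p.2

lemma val_conv {b : ℕ} (hb : 2 ≤ b) {F G : ℕ → ℤ} (hF : PolyB F) (hG : PolyB G) :
    val b (conv F G) = val b F * val b G := by
  have hbR : (2 : ℝ) ≤ b := by exact_mod_cast hb
  have hb0 : (b : ℝ) ≠ 0 := by linarith
  have h1 := tsum_mul_tsum_eq_tsum_sum_antidiagonal_of_summable_norm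
    (hF.summable hb).norm (hG.summable hb).norm
  unfold val
  rw [h1]
  apply tsum_congr
  intro n
  unfold conv
  push_cast
  rw [Finset.sum_div]
  apply Finset.sum_congr rfl
  intro p hp
  have h2 : n = p.1 + p.2 := (Finset.HasAntidiagonal.mem_antidiagonal.1 hp).symm
  rw [h2, pow_add]
  have h3 : (b : ℝ) ^ p.1 ≠ 0 := pow_ne_zero _ hb0
  have h4 : (b : ℝ) ^ p.2 ≠ 0 := pow_ne_zero _ hb0
  field_simp

lemma PolyB.conv {F G : ℕ → ℤ} (hF : PolyB F) (hG : PolyB G) : PolyB (conv F G) := by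
  obtain ⟨K, hK⟩ := hF
  obtain ⟨K', hK'⟩ := hG
  refine ⟨K * K' + K + K' + 1, fun n => ?_⟩
  unfold T.conv
  refine (Finset.abs_sum_le_sum_abs _ _).trans ?_
  have h1 : ∀ p ∈ antidiagonal n, |F p.1 * G p.2| ≤
      ((K * (n + 1) ^ K * (K' * (n + 1) ^ K') : ℕ) : ℤ) := by
    intro p hp
    have h2 : p.1 + p.2 = n := Finset.HasAntidiagonal.mem_antidiagonal.1 hp
    rw [abs_mul, Nat.cast_mul]
    apply mul_le_mul _ _ (abs_nonneg _) (by positivity)
    · refine (hK _).trans ?_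
      exact_mod_cast Nat.mul_le_mul_left _ (Nat.pow_le_pow_left (by omega) _)
    · refine (hK' _).trans ?_
      exact_mod_cast Nat.mul_le_mul_left _ (Nat.pow_le_pow_left (by omega) _)
  refine (Finset.sum_le_sum h1).trans ?_
  rw [Finset.sum_const, Finset.Nat.card_antidiagonal, nsmul_eq_mul]
  have h3 : (n + 1) * (K * (n + 1) ^ K * (K' * (n + 1) ^ K')) ≤
      (K * K' + K + K' + 1) * (n + 1) ^ (K * K' + K + K' + 1) := by
    calc (n + 1) * (K * (n + 1) ^ K * (K' * (n + 1) ^ K'))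
        = (K * K') * (n + 1) ^ (K + K' + 1) := by ring
      _ ≤ _ := Nat.mul_le_mul (by omega) (Nat.pow_le_pow_right (by omega) (by omega))
  exact_mod_cast h3

lemma split_aux {A x W y u : ℕ} (hy : y < 2 * A) (hu : u < A) (h : x * A + y = W * A + u) :
    (x = W ∧ y = u) ∨ (x + 1 = W ∧ y = u + A) := by
  rcases Nat.lt_trichotomy x W with h1 | h1 | h1
  · obtain ⟨d, rfl⟩ : ∃ d, W = x + 1 + d := ⟨W - (x + 1), by omega⟩
    have h2 : (x + 1 + d) * A = x * A + A + d * A := by ring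
    rcases Nat.eq_zero_or_pos d with hd | hd
    · subst hd
      right
      constructor
      · omega
      · omega
    · exfalso
      have h3 : A ≤ d * A := Nat.le_mul_of_pos_left _ hd
      omega
  · left; subst h1; exact ⟨rfl, by omega⟩
  · obtain ⟨d, rfl⟩ : ∃ d, x = W + 1 + d := ⟨x - (W + 1), by omega⟩
    have h2 : (W + 1 + d) * A = W * A + A + d * A := by ring
    exfalso
    omega

/-- pairs with sum `W - 1` (none when `W = 0`) -/
def antiPred (W : ℕ) : Finset (ℕ × ℕ) := if W = 0 then ∅ else antidiagonal (W - 1)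

lemma mem_antiPred {W : ℕ} {p : ℕ × ℕ} : p ∈ antiPred W ↔ p.1 + p.2 + 1 = W := by
  unfold antiPred
  split_ifs with h
  · simp; omega
  · rw [Finset.HasAntidiagonal.mem_antidiagonal]; omega

lemma antidiag_split (A : ℕ) (W u : ℕ) (hu : u < A) (Φ : ℕ × ℕ → ℕ × ℕ → ℚ) :
    ∑ p ∈ antidiagonal (W * A + u), Φ (p.1 / A, p.2 / A) (p.1 % A, p.2 % A) =
      ∑ w ∈ antidiagonal W, ∑ v ∈ antidiagonal u, Φ w v +
      ∑ w ∈ antiPred W, ∑ v ∈ (antidiagonal (u + A)).filter (fun v => v.1 < A ∧ v.2 < A),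
        Φ w v := by
  have hA : 0 < A := by omega
  rw [← Finset.sum_filter_add_sum_filter_not (antidiagonal (W * A + u))
    (fun p => p.1 % A + p.2 % A = u)]
  congr 1
  · rw [← Finset.sum_product']
    refine Finset.sum_bij' (fun p _ => ((p.1 / A, p.2 / A), (p.1 % A, p.2 % A)))
      (fun q _ => (q.1.1 * A + q.2.1, q.1.2 * A + q.2.2)) ?_ ?_ ?_ ?_ ?_
    · intro p hp
      rw [Finset.mem_filter, Finset.HasAntidiagonal.mem_antidiagonal] at hp
      rw [Finset.mem_product, Finset.HasAntidiagonal.mem_antidiagonal, Finset.HasAntidiagonal.mem_antidiagonal]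
      have h1 := Nat.div_add_mod p.1 A
      have h2 := Nat.div_add_mod p.2 A
      refine ⟨?_, hp.2⟩
      simp only
      have h3 : (p.1 / A + p.2 / A) * A = W * A := by
        rw [Nat.add_mul, mul_comm (p.1 / A), mul_comm (p.2 / A)]
        omega
      exact Nat.eq_of_mul_eq_mul_right hA h3
    · intro q hq
      rw [Finset.mem_product, Finset.HasAntidiagonal.mem_antidiagonal, Finset.HasAntidiagonal.mem_antidiagonal] at hq
      rw [Finset.mem_filter, Finset.HasAntidiagonal.mem_antidiagonal]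
      simp only
      have h1 : q.2.1 < A := by omega
      have h2 : q.2.2 < A := by omega
      constructor
      · have : q.1.1 * A + q.2.1 + (q.1.2 * A + q.2.2) = (q.1.1 + q.1.2) * A + (q.2.1 + q.2.2) := by
          ring
        rw [this, hq.1, hq.2]
      · rw [mul_comm q.1.1, mul_comm q.1.2, Nat.mul_add_mod, Nat.mul_add_mod, Nat.mod_eq_of_lt h1,
          Nat.mod_eq_of_lt h2]
        exact hq.2
    · intro p _
      ext
      · simp only; rw [mul_comm]; exact Nat.div_add_mod _ _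
      · simp only; rw [mul_comm]; exact Nat.div_add_mod _ _
    · intro q hq
      rw [Finset.mem_product, Finset.HasAntidiagonal.mem_antidiagonal, Finset.HasAntidiagonal.mem_antidiagonal] at hq
      have h1 : q.2.1 < A := by omega
      have h2 : q.2.2 < A := by omega
      simp only [mul_comm q.1.1, mul_comm q.1.2, Nat.mul_add_mod,
        Nat.mod_eq_of_lt h1, Nat.mod_eq_of_lt h2, Nat.mul_add_div hA, Nat.div_eq_of_lt h1,
        Nat.div_eq_of_lt h2, add_zero]
    · intro p _; rfl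
  · rw [← Finset.sum_product']
    refine Finset.sum_bij' (fun p _ => ((p.1 / A, p.2 / A), (p.1 % A, p.2 % A)))
      (fun q _ => (q.1.1 * A + q.2.1, q.1.2 * A + q.2.2)) ?_ ?_ ?_ ?_ ?_
    · intro p hp
      rw [Finset.mem_filter, Finset.HasAntidiagonal.mem_antidiagonal] at hp
      rw [Finset.mem_product, mem_antiPred, Finset.mem_filter, Finset.HasAntidiagonal.mem_antidiagonal]
      have h1 := Nat.div_add_mod p.1 A
      have h2 := Nat.div_add_mod p.2 A
      have h4 := Nat.mod_lt p.1 hA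
      have h5 := Nat.mod_lt p.2 hA
      simp only
      have h3 : (p.1 / A + p.2 / A) * A + (p.1 % A + p.2 % A) = W * A + u := by
        rw [Nat.add_mul, mul_comm (p.1 / A), mul_comm (p.2 / A)]
        omega
      rcases split_aux (by omega) hu h3 with h6 | h6
      · exact absurd h6.2 hp.2
      · exact ⟨h6.1, h6.2, h4, h5⟩
    · intro q hq
      rw [Finset.mem_product, mem_antiPred, Finset.mem_filter, Finset.HasAntidiagonal.mem_antidiagonal] at hq
      obtain ⟨hq1, hq2, h1, h2⟩ := hq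
      rw [Finset.mem_filter, Finset.HasAntidiagonal.mem_antidiagonal]
      simp only
      constructor
      · have h3 : q.1.1 * A + q.2.1 + (q.1.2 * A + q.2.2) =
            (q.1.1 + q.1.2) * A + (q.2.1 + q.2.2) := by ring
        have h4 : (q.1.1 + q.1.2 + 1) * A = (q.1.1 + q.1.2) * A + A := by ring
        rw [hq1] at h4
        rw [h3, hq2]; omega
      · rw [mul_comm q.1.1, mul_comm q.1.2, Nat.mul_add_mod, Nat.mul_add_mod, Nat.mod_eq_of_lt h1,
          Nat.mod_eq_of_lt h2]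
        omega
    · intro p _
      ext
      · simp only; rw [mul_comm]; exact Nat.div_add_mod _ _
      · simp only; rw [mul_comm]; exact Nat.div_add_mod _ _
    · intro q hq
      rw [Finset.mem_product, mem_antiPred, Finset.mem_filter, Finset.HasAntidiagonal.mem_antidiagonal] at hq
      obtain ⟨hq1, hq2, h1, h2⟩ := hq
      simp only [mul_comm q.1.1, mul_comm q.1.2, Nat.mul_add_mod,
        Nat.mod_eq_of_lt h1, Nat.mod_eq_of_lt h2, Nat.mul_add_div hA, Nat.div_eq_of_lt h1,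
        Nat.div_eq_of_lt h2, add_zero]
    · intro p _; rfl

/-- rank bounds from any finite factorisation -/
lemma rankLE_of {F : ℕ → ℤ} {k s r ρ : ℕ} (Z : Type*) [Fintype Z] (hZ : Fintype.card Z ≤ ρ)
    (α : ℕ → Z → ℚ) (β : Z → ℕ → ℚ) (h : ∀ W, W < k ^ s → ∀ u, u < k ^ r →
      (F (W * k ^ r + u) : ℚ) = ∑ z, α W z * β z u) : RankLE F k s r ρ := by
  classical
  let e : Z → Fin ρ := fun z => Fin.castLE hZ (Fintype.equivFin Z z)
  have he : Function.Injective e := (Fin.castLE_injective hZ).comp (Fintype.equivFin Z).injective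
  refine ⟨fun W => Function.extend e (α W) 0, fun z u => Function.extend e (fun z => β z u) 0 z, ?_⟩
  intro W hW u hu
  rw [h W hW u hu]
  apply Fintype.sum_of_injective e he
  · intro i hi
    simp only
    rw [Function.extend_apply' _ _ _ (fun ⟨a, ha⟩ => hi ⟨a, ha⟩)]
    simp
  · intro z
    simp only
    rw [he.extend_apply, he.extend_apply]

lemma RankLE.mono {F : ℕ → ℤ} {k s r ρ ρ' : ℕ} (h : RankLE F k s r ρ) (hρ : ρ ≤ ρ') :
    RankLE F k s r ρ' := by
  obtain ⟨α, β, hαβ⟩ := h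
  exact rankLE_of (Fin ρ) (by simpa using hρ) α β hαβ

theorem RankLE.conv {F G : ℕ → ℤ} {k s r ρ ρ' : ℕ} (hk : 0 < k) (hF : RankLE F k s r ρ)
    (hG : RankLE G k s r ρ') : RankLE (conv F G) k s r (2 * ρ * ρ') := by
  obtain ⟨α, β, hαβ⟩ := hF
  obtain ⟨α', β', hαβ'⟩ := hG
  set A : ℕ := k ^ r with hA
  have hA0 : 0 < A := by rw [hA]; positivity
  apply rankLE_of (Bool × Fin ρ × Fin ρ') (by simp [mul_assoc])
    (fun W z => if z.1 then ∑ w ∈ antiPred W, α w.1 z.2.1 * α' w.2 z.2.2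
      else ∑ w ∈ antidiagonal W, α w.1 z.2.1 * α' w.2 z.2.2)
    (fun z u => if z.1 then ∑ v ∈ (antidiagonal (u + A)).filter (fun v => v.1 < A ∧ v.2 < A),
        β z.2.1 v.1 * β' z.2.2 v.2
      else ∑ v ∈ antidiagonal u, β z.2.1 v.1 * β' z.2.2 v.2)
  intro W hW u hu
  rw [← hA] at hu ⊢
  have h1 : ((T.conv F G (W * A + u) : ℤ) : ℚ) = ∑ p ∈ antidiagonal (W * A + u),
      (fun (w v : ℕ × ℕ) => (∑ z, α w.1 z * β z v.1) * (∑ z, α' w.2 z * β' z v.2))
        (p.1 / A, p.2 / A) (p.1 % A, p.2 % A) := by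
    unfold T.conv
    push_cast
    apply Finset.sum_congr rfl
    intro p hp
    have h2 : p.1 + p.2 = W * A + u := Finset.HasAntidiagonal.mem_antidiagonal.1 hp
    have h3 : (W + 1) * A ≤ k ^ s * A := Nat.mul_le_mul_right _ hW
    have h4 : (W + 1) * A = W * A + A := by ring
    have h5 : p.1 / A < k ^ s := Nat.div_lt_of_lt_mul (by rw [mul_comm]; omega)
    have h6 : p.2 / A < k ^ s := Nat.div_lt_of_lt_mul (by rw [mul_comm]; omega)
    have h7 := hαβ (p.1 / A) h5 (p.1 % A) (Nat.mod_lt _ hA0)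
    have h8 := hαβ' (p.2 / A) h6 (p.2 % A) (Nat.mod_lt _ hA0)
    have h9 : p.1 / A * A + p.1 % A = p.1 := by rw [mul_comm]; exact Nat.div_add_mod _ _
    have h10 : p.2 / A * A + p.2 % A = p.2 := by rw [mul_comm]; exact Nat.div_add_mod _ _
    rw [h9] at h7
    rw [h10] at h8
    rw [← h7, ← h8]
  rw [h1, antidiag_split A W u hu (fun (w v : ℕ × ℕ) => (∑ z, α w.1 z * β z v.1) *
    (∑ z, α' w.2 z * β' z v.2)), Fintype.sum_prod_type, Fintype.sum_bool, add_comm]
  simp only [if_true, Bool.false_eq_true, if_false, Fintype.sum_prod_type]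
  have key : ∀ (S1 S2 : Finset (ℕ × ℕ)),
      ∑ w ∈ S1, ∑ v ∈ S2, (∑ z, α w.1 z * β z v.1) * (∑ z, α' w.2 z * β' z v.2) =
      ∑ z, ∑ z', (∑ w ∈ S1, α w.1 z * α' w.2 z') * (∑ v ∈ S2, β z v.1 * β' z' v.2) := by
    intro S1 S2
    calc ∑ w ∈ S1, ∑ v ∈ S2, (∑ z, α w.1 z * β z v.1) * (∑ z, α' w.2 z * β' z v.2)
        = ∑ w ∈ S1, ∑ v ∈ S2, ∑ z, ∑ z', (α w.1 z * β z v.1) * (α' w.2 z' * β' z' v.2) := by
          apply Finset.sum_congr rfl; intro w _
          apply Finset.sum_congr rfl; intro v _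
          rw [Finset.sum_mul_sum]
      _ = ∑ w ∈ S1, ∑ z, ∑ z', ∑ v ∈ S2, (α w.1 z * β z v.1) * (α' w.2 z' * β' z' v.2) := by
          apply Finset.sum_congr rfl; intro w _
          rw [Finset.sum_comm]
          apply Finset.sum_congr rfl; intro z _
          rw [Finset.sum_comm]
      _ = ∑ z, ∑ z', ∑ w ∈ S1, ∑ v ∈ S2, (α w.1 z * β z v.1) * (α' w.2 z' * β' z' v.2) := by
          rw [Finset.sum_comm]
          apply Finset.sum_congr rfl; intro z _
          rw [Finset.sum_comm]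
      _ = _ := by
          apply Finset.sum_congr rfl; intro z _
          apply Finset.sum_congr rfl; intro z' _
          rw [Finset.sum_mul_sum]
          apply Finset.sum_congr rfl; intro w _
          apply Finset.sum_congr rfl; intro v _
          ring
  rw [key, key]

/-- the rank grows at most like `γ ^ s`, up to a polynomial factor -/
def RateLE (F : ℕ → ℤ) (k γ : ℕ) : Prop :=
  ∃ K e : ℕ, ∀ s r, RankLE F k s r (K * (s + 1) ^ e * γ ^ s)

theorem RateLE.conv {F G : ℕ → ℤ} {k γ γ' : ℕ} (hk : 0 < k) (hF : RateLE F k γ)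
    (hG : RateLE G k γ') : RateLE (conv F G) k (γ * γ') := by
  obtain ⟨K, e, h⟩ := hF
  obtain ⟨K', e', h'⟩ := hG
  refine ⟨2 * K * K', e + e', fun s r => ?_⟩
  refine ((h s r).conv hk (h' s r)).mono (le_of_eq ?_)
  ring

/-- the sequence `1, 0, 0, …` -/
def one (n : ℕ) : ℤ := if n = 0 then 1 else 0

lemma rateLE_one {k : ℕ} (hk : 0 < k) : RateLE one k 1 := by
  refine ⟨1, 0, fun s r => ?_⟩
  apply rankLE_of Unit (by simp) (fun W _ => if W = 0 then 1 else 0)
    (fun _ u => if u = 0 then 1 else 0)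
  intro W _ u _
  have hA : 0 < k ^ r := by positivity
  simp only [one, Finset.univ_unique, Finset.sum_singleton]
  by_cases hW : W = 0
  · subst hW
    by_cases hu : u = 0
    · subst hu; simp
    · simp [hu]
  · rw [if_neg hW, if_neg, Int.cast_zero, zero_mul]
    have := Nat.mul_pos (Nat.pos_of_ne_zero hW) hA
    omega

lemma val_one (b : ℕ) : val b one = 1 := by
  unfold val
  rw [tsum_eq_single 0]
  · simp [one]
  · intro n hn
    simp [one, hn]

lemma polyB_one : PolyB one := PolyB.of_bdd (B := 1) (fun n => by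
  unfold one; split_ifs <;> simp)

lemma rate_thin {F : ℕ → ℤ} {k γ : ℕ} (hk : 2 ≤ k) (hγ : γ < k) (h : RateLE F k γ) :
    Thin F k := by
  obtain ⟨K, e, h⟩ := h
  intro T
  set g : ℕ := max γ 1 with hg
  have hg1 : 1 ≤ g := le_max_right _ _
  have hgk : g < k := by rw [hg]; omega
  have hk0 : (0 : ℝ) < k := by
    have : 0 < k := by omega
    exact_mod_cast this
  have hr1 : |(g : ℝ) / k| < 1 := by
    rw [abs_of_nonneg (by positivity), div_lt_one hk0]
    exact_mod_cast hgk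
  have hr0 : (0 : ℝ) < (g : ℝ) / k := by
    have : (0 : ℝ) < g := by exact_mod_cast hg1
    positivity
  have hk1 : |1 / (k : ℝ)| < 1 := by
    rw [abs_of_nonneg (by positivity), div_lt_one hk0]
    have : 1 < k := by omega
    exact_mod_cast this
  have h1 := tendsto_pow_const_mul_const_pow_of_abs_lt_one e hr1
  have h2 := (Filter.tendsto_add_atTop_iff_nat 1).2 h1
  have h3 := h2.const_mul ((T : ℝ) * K * ((g : ℝ) / k)⁻¹)
  have h4 := (tendsto_pow_atTop_nhds_zero_of_abs_lt_one hk1).const_mul (T : ℝ)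
  have h5 := h3.add h4
  simp only [mul_zero, add_zero] at h5
  obtain ⟨s, hs⟩ := ((h5.eventually (gt_mem_nhds (show (0 : ℝ) < 1 by norm_num)))).exists
  refine ⟨s, K * (s + 1) ^ e * γ ^ s, 0, ?_, fun r _ => h s r⟩
  have hks : (0 : ℝ) < (k : ℝ) ^ s := by positivity
  have h6 : (T : ℝ) * K * ((s : ℝ) + 1) ^ e * (g : ℝ) ^ s + T ≤ (k : ℝ) ^ s := by
    have h7 : ((T : ℝ) * K * ((g : ℝ) / k)⁻¹ * (((s + 1 : ℕ) : ℝ) ^ e * ((g : ℝ) / k) ^ (s + 1)) +
        T * (1 / (k : ℝ)) ^ s) * (k : ℝ) ^ s =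
        (T : ℝ) * K * ((s : ℝ) + 1) ^ e * (g : ℝ) ^ s + T := by
      rw [pow_succ (((g : ℝ) / k))]
      have h8 : ((g : ℝ) / k) ≠ 0 := hr0.ne'
      have h9 : ((g : ℝ) / k) ^ s * (k : ℝ) ^ s = (g : ℝ) ^ s := by
        rw [← mul_pow, div_mul_cancel₀ _ hk0.ne']
      have h10 : (1 / (k : ℝ)) ^ s * (k : ℝ) ^ s = 1 := by
        rw [← mul_pow, one_div, inv_mul_cancel₀ hk0.ne', one_pow]
      push_cast
      calc _ = (T : ℝ) * K * ((s : ℝ) + 1) ^ e * (((g : ℝ) / k)⁻¹ * ((g : ℝ) / k)) *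
            (((g : ℝ) / k) ^ s * (k : ℝ) ^ s) + T * ((1 / (k : ℝ)) ^ s * (k : ℝ) ^ s) := by ring
        _ = _ := by rw [h9, h10, inv_mul_cancel₀ h8]; ring
    rw [← h7]
    have := mul_le_mul_of_nonneg_right hs.le hks.le
    linarith
  have h7 : T * K * (s + 1) ^ e * g ^ s + T ≤ k ^ s := by exact_mod_cast h6
  have h8 : γ ^ s ≤ g ^ s := Nat.pow_le_pow_left (le_max_left _ _) _
  calc T * (K * (s + 1) ^ e * γ ^ s + 1) = T * K * (s + 1) ^ e * γ ^ s + T := by ring
    _ ≤ T * K * (s + 1) ^ e * g ^ s + T := by gcongr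
    _ ≤ k ^ s := h7

end Pool.Agent.H648R2.T
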