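import Mathlib

set_option autoImplicit false

namespace Pool.Agent.H648R2.T

/-- A stack automaton with integer weights which reads the digits of a natural number, one move
per digit.

It has a finite set of states and `numStacks` stacks, the `i`-th one with `size i ≥ 1` stack
symbols (so a stack with one symbol is a counter).  It makes `passes.length` passes over the
digits; in a pass marked `true` it reads them from the most significant one to the least
significant one, in a pass marked `false` in the opposite order; a marker `none` is read at the
beginning of each pass.  In a move the automaton sees its state, the letter read and the top symbol
of every stack (`none` for an empty stack); it chooses one of finitely many `Choice`s, each of them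
with an integer weight, and then it changes state and replaces the top symbol of each stack by a
word of at most two symbols.  A deterministic automaton has one choice, with weight `1`. -/
structure StackAutomaton where
  /-- the states -/
  State : Type
  /-- there are finitely many states -/
  [finState : Fintype State]
  /-- the number of stacks -/
  numStacks : ℕ
  /-- the number of symbols of each stack -/
  size : Fin numStacks → ℕ
  /-- each stack has at least one symbol -/
  size_pos : ∀ i, 0 < size i
  /-- the choices in a move -/
  Choice : Type
  /-- there are finitely many choices -/
  [finChoice : Fintype Choice]
  /-- the initial state (the stacks are empty at the beginning) -/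
  start : State
  /-- the weight of a choice -/
  weight : State → Option ℕ → (∀ i, Option (Fin (size i))) → Choice → ℤ
  /-- the new state -/
  next : State → Option ℕ → (∀ i, Option (Fin (size i))) → Choice → State
  /-- the word which replaces the top symbol of each stack (cut after two symbols) -/
  push : State → Option ℕ → (∀ i, Option (Fin (size i))) → Choice → ∀ i, List (Fin (size i))
  /-- the output at the end of a computation -/
  output : State → (∀ i, Option (Fin (size i))) → ℤ
  /-- the directions of the passes (`true`: most significant digit first) -/
  passes : List Bool

namespace StackAutomaton

instance (M : StackAutomaton) : Fintype M.State := M.finState

instance (M : StackAutomaton) : Fintype M.Choice := M.finChoice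

/-- the configurations: a state and the contents of the stacks (top symbol first) -/
def Config (M : StackAutomaton) : Type := M.State × (∀ i, List (Fin (M.size i)))

/-- the top symbols -/
def tops (M : StackAutomaton) (c : M.Config) (i : Fin M.numStacks) : Option (Fin (M.size i)) :=
  (c.2 i).head?

/-- one move, reading the letter `d`, with the choice `e` -/
def step (M : StackAutomaton) (c : M.Config) (d : Option ℕ) (e : M.Choice) : M.Config :=
  (M.next c.1 d (M.tops c) e, fun i => (M.push c.1 d (M.tops c) e i).take 2 ++ (c.2 i).tail)

/-- the sum, over all computations which read the given word and start at `c`, of the product of
the weights and of the value of `f` at the last configuration -/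
def total (M : StackAutomaton) (f : M.Config → ℤ) : List (Option ℕ) → M.Config → ℤ
  | [], c => f c
  | d :: l, c => ∑ e, M.weight c.1 d (M.tops c) e * M.total f l (M.step c d e)

/-- the word read: for each pass the marker `none` and the base-`k` digits of `n` -/
def input (M : StackAutomaton) (k n : ℕ) : List (Option ℕ) :=
  M.passes.flatMap fun msb =>
    none :: (if msb then (Nat.digits k n).reverse else Nat.digits k n).map some

/-- the value computed by the automaton on the base-`k` digits of `n` -/
def out (M : StackAutomaton) (k n : ℕ) : ℤ :=
  M.total (fun c => M.output c.1 (M.tops c)) (M.input k n) (M.start, fun _ => [])

/-- the product of the numbers of symbols of the stacks (`1` for a multi-counter automaton) -/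
def memory (M : StackAutomaton) : ℕ := ∏ i, M.size i

/-- the cost: `memory` for at most one pass and `memory ^ (3 p)` for `p ≥ 2` passes; it is `1` for
every multi-counter automaton -/
def cost (M : StackAutomaton) : ℕ :=
  if M.passes.length ≤ 1 then M.memory else M.memory ^ (3 * M.passes.length)

end StackAutomaton

end Pool.Agent.H648R2.T
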