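import Mathlib
import Pool.Agent.H648R2.T.Def
import Pool.Agent.H648R2.T.Conv

set_option autoImplicit false

open Finset

namespace Pool.Agent.H648R2.T

namespace StackAutomaton

variable (M : StackAutomaton)

lemma config_ext {c c' : M.Config} (h1 : c.1 = c'.1) (h2 : ∀ i, c.2 i = c'.2 i) : c = c' :=
  Prod.ext h1 (funext h2)

/-! ### codes -/

/-- codes of configurations with stacks of height at most `N` -/
abbrev Code (N : ℕ) : Type :=
  M.State × (∀ i, Fin (N + 1) × (Fin N → Fin (M.size i)))

noncomputable instance instFintypeCode (N : ℕ) : Fintype (M.Code N) := by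
  classical
  exact inferInstance

lemma card_code (N : ℕ) : Fintype.card (M.Code N) =
    Fintype.card M.State * ((N + 1) ^ M.numStacks * M.memory ^ N) := by
  classical
  rw [show Fintype.card (M.Code N) = Fintype.card M.State *
    ∏ i, Fintype.card (Fin (N + 1) × (Fin N → Fin (M.size i))) by
      rw [← Fintype.card_pi, ← Fintype.card_prod]]
  congr 1
  simp only [Fintype.card_prod, Fintype.card_fin, Fintype.card_fun, Finset.prod_mul_distrib,
    Finset.prod_const, Finset.card_univ, memory, Finset.prod_pow]

/-- the code of a configuration -/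
def enc (N : ℕ) (c : M.Config) : M.Code N :=
  (c.1, fun i => (⟨min N (c.2 i).length, by omega⟩,
    fun j => (c.2 i).getD j ⟨0, M.size_pos i⟩))

/-- decoding -/
def dec (N : ℕ) (z : M.Code N) : M.Config :=
  (z.1, fun i => (List.ofFn (z.2 i).2).take (z.2 i).1)

/-- the configuration with all stacks cut below depth `N` -/
def trunc (N : ℕ) (c : M.Config) : M.Config := (c.1, fun i => (c.2 i).take N)

lemma dec_enc (N : ℕ) (c : M.Config) : M.dec N (M.enc N c) = M.trunc N c := by
  unfold dec enc trunc
  apply M.config_ext
  · rfl
  · intro i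
    simp only
    apply List.ext_getElem
    · simp
    · intro j h1 h2
      simp only [List.length_take, List.length_ofFn] at h1
      rw [List.getElem_take, List.getElem_take, List.getElem_ofFn, List.getD_eq_getElem]

/-- add symbols at the bottoms of the stacks -/
def app (c : M.Config) (rest : ∀ i, List (Fin (M.size i))) : M.Config :=
  (c.1, fun i => c.2 i ++ rest i)

lemma trunc_app (N : ℕ) (c : M.Config) :
    M.app (M.trunc N c) (fun i => (c.2 i).drop N) = c := by
  unfold app trunc
  apply M.config_ext
  · rfl
  · intro i; simp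

lemma trunc_of_le (N : ℕ) (c : M.Config) (h : ∀ i, (c.2 i).length ≤ N) : M.trunc N c = c := by
  unfold trunc
  apply M.config_ext
  · rfl
  · intro i
    simp only
    rw [List.take_of_length_le (h _)]

lemma tops_app (c : M.Config) (rest : ∀ i, List (Fin (M.size i)))
    (h : ∀ i, rest i = [] ∨ 1 ≤ (c.2 i).length) : M.tops (M.app c rest) = M.tops c := by
  funext i
  unfold tops app
  simp only
  rcases h i with h2 | h2
  · rw [h2, List.append_nil]
  · rw [List.head?_append_of_ne_nil]
    intro h3
    rw [h3] at h2
    simp at h2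

lemma step_app (c : M.Config) (rest : ∀ i, List (Fin (M.size i)))
    (h : ∀ i, rest i = [] ∨ 1 ≤ (c.2 i).length) (d : Option ℕ) (e : M.Choice) :
    M.step (M.app c rest) d e = M.app (M.step c d e) rest := by
  unfold step
  rw [M.tops_app c rest h]
  unfold app
  apply M.config_ext
  · rfl
  · intro i
    simp only
    rcases h i with h2 | h2
    · rw [h2]; simp
    · rw [List.tail_append_of_ne_nil, List.append_assoc]
      intro h3
      rw [h3] at h2
      simp at h2

/-! ### the operator `total` -/

lemma total_append (f : M.Config → ℤ) (l1 l2 : List (Option ℕ)) :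
    M.total f (l1 ++ l2) = M.total (M.total f l2) l1 := by
  induction l1 with
  | nil => rfl
  | cons d l1 ih =>
    funext c
    rw [List.cons_append]
    unfold total
    apply Finset.sum_congr rfl
    intro e _
    rw [ih]

lemma total_sum {ι : Type*} (s : Finset ι) (a : ι → ℤ) (f : ι → M.Config → ℤ)
    (l : List (Option ℕ)) : ∀ c, M.total (fun c => ∑ i ∈ s, a i * f i c) l c =
      ∑ i ∈ s, a i * M.total (f i) l c := by
  induction l with
  | nil => intro c; rfl
  | cons d l ih =>
    intro c
    unfold total
    simp_rw [ih, Finset.mul_sum]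
    rw [Finset.sum_comm]
    apply Finset.sum_congr rfl
    intro i _
    apply Finset.sum_congr rfl
    intro e _
    ring

/-- `c'` is reached from `c` by reading the word -/
def Reach : List (Option ℕ) → M.Config → M.Config → Prop
  | [], c, c' => c' = c
  | d :: l, c, c' => ∃ e, Reach l (M.step c d e) c'

lemma total_congr (f f' : M.Config → ℤ) (l : List (Option ℕ)) : ∀ c,
    (∀ c', M.Reach l c c' → f c' = f' c') → M.total f l c = M.total f' l c := by
  induction l with
  | nil => intro c h; exact h c rfl
  | cons d l ih =>
    intro c h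
    unfold total
    apply Finset.sum_congr rfl
    intro e _
    rw [ih (M.step c d e) (fun c' hc' => h c' ⟨e, hc'⟩)]

/-- heights grow slowly -/
lemma reach_height (l : List (Option ℕ)) : ∀ (c c' : M.Config) (H : ℕ), 1 ≤ H →
    (∀ i, (c.2 i).length ≤ H) → M.Reach l c c' → ∀ i, (c'.2 i).length ≤ H + l.length := by
  induction l with
  | nil => intro c c' H _ h hr i; rw [show c' = c from hr]; simpa using h i
  | cons d l ih =>
    intro c c' H hH h hr i
    obtain ⟨e, he⟩ := hr
    rw [List.length_cons]
    have h1 := ih (M.step c d e) c' (H + 1) (by omega) (by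
      intro i
      have h2 := h i
      unfold step
      simp only [List.length_append, List.length_take, List.length_tail]
      omega) he i
    omega

lemma reach_low (l : List (Option ℕ)) : ∀ (c c' : M.Config) (i : Fin M.numStacks) (m : ℕ),
    l.length + m ≤ (c.2 i).length → M.Reach l c c' → m ≤ (c'.2 i).length := by
  induction l with
  | nil => intro c c' i m h hr; rw [show c' = c from hr]; simpa using h
  | cons d l ih =>
    intro c c' i m h hr
    obtain ⟨e, he⟩ := hr
    apply ih (M.step c d e) c' i m _ he
    unfold step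
    simp only [List.length_append, List.length_tail, List.length_cons] at h ⊢
    omega

lemma total_app (f : M.Config → ℤ) (l : List (Option ℕ)) : ∀ (c : M.Config)
    (rest : ∀ i, List (Fin (M.size i))), (∀ i, rest i = [] ∨ l.length ≤ (c.2 i).length) →
    M.total f l (M.app c rest) = M.total (fun c => f (M.app c rest)) l c := by
  induction l with
  | nil => intro c rest _; rfl
  | cons d l ih =>
    intro c rest h
    have h0 : ∀ i, rest i = [] ∨ 1 ≤ (c.2 i).length := by
      intro i
      rcases h i with h1 | h1
      · left; exact h1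
      · right
        rw [List.length_cons] at h1
        omega
    unfold total
    rw [M.tops_app c rest h0]
    apply Finset.sum_congr rfl
    intro e _
    rw [M.step_app c rest h0 d e, ih]
    · rfl
    · intro i
      rcases h i with h1 | h1
      · left; exact h1
      · right
        unfold step
        simp only [List.length_append, List.length_tail, List.length_cons] at h1 ⊢
        omega

lemma rest_cond (N : ℕ) (c : M.Config) (n : ℕ) (hn : n ≤ N) (i : Fin M.numStacks) :
    (c.2 i).drop N = [] ∨ n ≤ ((M.trunc N c).2 i).length := by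
  rcases Nat.lt_or_ge N (c.2 i).length with h | h
  · right
    unfold trunc
    simp only [List.length_take]
    omega
  · left
    exact List.drop_eq_nil_of_le h

lemma total_trunc (f : M.Config → ℤ) (N : ℕ) (c : M.Config) (l : List (Option ℕ))
    (hl : l.length ≤ N) : M.total f l c =
      M.total (fun c' => f (M.app c' (fun i => (c.2 i).drop N))) l (M.trunc N c) := by
  conv_lhs => rw [← M.trunc_app N c]
  apply M.total_app
  intro i
  exact M.rest_cond N c _ hl i

/-- the final output -/
def fo (c : M.Config) : ℤ := M.output c.1 (M.tops c)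

lemma total_fo_trunc (N : ℕ) (c : M.Config) (l : List (Option ℕ)) (hl : l.length + 1 ≤ N) :
    M.total M.fo l c = M.total M.fo l (M.trunc N c) := by
  rw [M.total_trunc M.fo N c l (by omega)]
  apply M.total_congr
  intro c' hc'
  unfold fo
  rw [M.tops_app]
  · rfl
  · intro i
    rcases M.rest_cond N c (l.length + 1) hl i with h | h
    · left; exact h
    · right
      exact M.reach_low l _ c' i 1 h hc'

/-! ### the digits of `W * k^r + u` -/

/-- the digits of `u`, padded to length `r` -/
def padU (k r u : ℕ) : List (Option ℕ) :=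
  ((Nat.digits k u) ++ List.replicate (r - (Nat.digits k u).length) 0).map some

/-- the digits of `W` -/
def digW (k W : ℕ) : List (Option ℕ) := (Nat.digits k W).map some

lemma digits_split {k : ℕ} (hk : 2 ≤ k) {W u r : ℕ} (hW : 0 < W) (hu : u < k ^ r) :
    (Nat.digits k (W * k ^ r + u)).map some = padU k r u ++ digW k W := by
  have h1 : (Nat.digits k u).length ≤ r := (Nat.digits_length_le_iff (by omega) u).2 hu
  have h2 := Nat.digits_append_zeroes_append_digits (b := k) (k := r - (Nat.digits k u).length)
    (m := W) (n := u) (by omega) hW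
  have h3 : (Nat.digits k u).length + (r - (Nat.digits k u).length) = r := by omega
  rw [h3] at h2
  have h4 : W * k ^ r + u = u + k ^ r * W := by ring
  rw [h4, ← h2, padU, digW, List.map_append]

lemma length_digW {k : ℕ} (hk : 2 ≤ k) {W s : ℕ} (hW : W < k ^ s) : (digW k W).length ≤ s := by
  unfold digW
  rw [List.length_map]
  exact (Nat.digits_length_le_iff (by omega) W).2 hW

/-- one pass over the input -/
def pass (k W r u : ℕ) (msb : Bool) : List (Option ℕ) :=
  if msb then none :: ((digW k W).reverse ++ (padU k r u).reverse)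
  else none :: (padU k r u ++ digW k W)

lemma input_eq {k : ℕ} (hk : 2 ≤ k) {W u r : ℕ} (hW : 0 < W) (hu : u < k ^ r) :
    M.input k (W * k ^ r + u) = M.passes.flatMap (pass k W r u) := by
  unfold input
  congr 1
  funext msb
  unfold pass
  have h1 := digits_split hk hW hu
  cases msb
  · simp only [Bool.false_eq_true, if_false]
    rw [h1]
  · simp only [if_true]
    rw [List.map_reverse, h1, List.reverse_append]

/-- rank bounds from labels for `W > 0` -/
lemma rankLE_of_pos {F : ℕ → ℤ} {k s r ρ : ℕ} (Z : Type*) [Fintype Z] (hZ : Fintype.card Z + 1 ≤ ρ)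
    (α : ℕ → Z → ℤ) (β : Z → ℕ → ℤ) (h : ∀ W, 0 < W → W < k ^ s → ∀ u, u < k ^ r →
      F (W * k ^ r + u) = ∑ z, α W z * β z u) : RankLE F k s r ρ := by
  classical
  apply rankLE_of (Option Z) (by rw [Fintype.card_option]; exact hZ)
    (fun W z => match z with
      | none => if W = 0 then 1 else 0
      | some z => if W = 0 then 0 else (α W z : ℚ))
    (fun z u => match z with
      | none => F u
      | some z => β z u)
  intro W hW u hu
  rw [Fintype.sum_option]
  by_cases hW0 : W = 0
  · subst hW0
    simp
  · rw [h W (Nat.pos_of_ne_zero hW0) hW u hu]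
    simp [hW0]

/-- one pass -/
lemma rank_one {k : ℕ} (hk : 2 ≤ k) (msb : Bool) (hM : M.passes = [msb]) (s r : ℕ) :
    RankLE (M.out k) k s r (Fintype.card (M.Code (s + 2)) + 1) := by
  classical
  cases msb
  · apply rankLE_of_pos (M.Code (s + 2)) le_rfl
      (fun W z => M.total M.fo (digW k W) (M.dec (s + 2) z))
      (fun z u => M.total (fun c => if M.enc (s + 2) c = z then 1 else 0) (none :: padU k r u)
        (M.start, fun _ => []))
    intro W hW hWs u hu
    unfold out
    rw [M.input_eq hk hW hu, hM]
    have h1 : [false].flatMap (pass k W r u) = (none :: padU k r u) ++ digW k W := by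
      simp [pass]
    rw [h1]
    change M.total M.fo _ _ = _
    rw [M.total_append, ← M.total_sum]
    apply M.total_congr
    intro c _
    rw [Finset.sum_eq_single (M.enc (s + 2) c)]
    · rw [if_pos rfl, mul_one, dec_enc]
      exact M.total_fo_trunc (s + 2) c _ (by have := length_digW hk hWs; omega)
    · intro z _ hz
      rw [if_neg (fun h => hz h.symm), mul_zero]
    · intro h; exact absurd (Finset.mem_univ _) h
  · apply rankLE_of_pos (M.Code (s + 2)) le_rfl
      (fun W z => M.total (fun c => if M.enc (s + 2) c = z then 1 else 0)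
        (none :: (digW k W).reverse) (M.start, fun _ => []))
      (fun z u => M.total M.fo (padU k r u).reverse (M.dec (s + 2) z))
    intro W hW hWs u hu
    unfold out
    rw [M.input_eq hk hW hu, hM]
    have h1 : [true].flatMap (pass k W r u) =
        (none :: (digW k W).reverse) ++ (padU k r u).reverse := by
      simp [pass]
    rw [h1]
    change M.total M.fo _ _ = _
    simp_rw [mul_comm (M.total (fun c => if M.enc (s + 2) c = _ then 1 else 0) _ _)]
    rw [M.total_append, ← M.total_sum]
    apply M.total_congr
    intro c hc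
    rw [Finset.sum_eq_single (M.enc (s + 2) c)]
    · rw [if_pos rfl, mul_one, dec_enc, M.trunc_of_le]
      intro i
      have h2 := length_digW hk hWs
      have h3 := M.reach_height (none :: (digW k W).reverse) (M.start, fun _ => []) c 1 le_rfl
        (fun i => by simp) hc i
      simp only [List.length_cons, List.length_reverse] at h3
      omega
    · intro z _ hz
      rw [if_neg (fun h => hz h.symm), mul_zero]
    · intro h; exact absurd (Finset.mem_univ _) h

/-- `Φ W u c` is a sum of at most `L` products of a function of `W` and a function of `(u, c)` -/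
def Decomp (k s r L : ℕ) (Φ : ℕ → ℕ → M.Config → ℤ) : Prop :=
  ∃ (I : Type) (_ : Fintype I) (a : I → ℕ → ℤ) (b : I → ℕ → M.Config → ℤ), Fintype.card I ≤ L ∧
    ∀ W, 0 < W → W < k ^ s → ∀ u, u < k ^ r → ∀ c, Φ W u c = ∑ i, a i W * b i u c

lemma Decomp.stepU {k s r L : ℕ} {Φ : ℕ → ℕ → M.Config → ℤ} (h : M.Decomp k s r L Φ)
    (l : ℕ → List (Option ℕ)) : M.Decomp k s r L (fun W u => M.total (Φ W u) (l u)) := by
  obtain ⟨I, hI, a, b, hc, h⟩ := h
  refine ⟨I, hI, a, fun i u => M.total (b i u) (l u), hc, ?_⟩
  intro W hW hWs u hu c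
  rw [← M.total_sum]
  apply M.total_congr
  intro c' _
  exact h W hW hWs u hu c'

lemma Decomp.stepW {k s r L : ℕ} {Φ : ℕ → ℕ → M.Config → ℤ} (h : M.Decomp k s r L Φ)
    (l : ℕ → List (Option ℕ)) (hlen : ∀ W, W < k ^ s → (l W).length ≤ s) :
    M.Decomp k s r
      (L * (Fintype.card (M.Code (s + 1)) * Fintype.card (M.Code (2 * s + 1))))
      (fun W u => M.total (Φ W u) (l W)) := by
  classical
  obtain ⟨I, hI, a, b, hc, h⟩ := h
  refine ⟨I × (M.Code (s + 1) × M.Code (2 * s + 1)), inferInstance,
    fun i W => a i.1 W * M.total (fun c => if M.enc (2 * s + 1) c = i.2.2 then 1 else 0) (l W)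
      (M.dec (s + 1) i.2.1),
    fun i u c => if M.enc (s + 1) c = i.2.1 then
      b i.1 u (M.app (M.dec (2 * s + 1) i.2.2) (fun j => (c.2 j).drop (s + 1))) else 0, ?_, ?_⟩
  · rw [Fintype.card_prod, Fintype.card_prod]
    exact Nat.mul_le_mul_right _ hc
  intro W hW hWs u hu c
  have hlW := hlen W hWs
  have h1 : M.total (Φ W u) (l W) c = ∑ i, a i W * M.total (b i u) (l W) c := by
    rw [← M.total_sum]
    apply M.total_congr
    intro c' _
    exact h W hW hWs u hu c'
  simp only
  rw [h1, Fintype.sum_prod_type]
  apply Finset.sum_congr rfl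
  intro i _
  rw [Fintype.sum_prod_type, Finset.sum_eq_single (M.enc (s + 1) c)]
  · simp only [if_true, dec_enc]
    rw [M.total_trunc (b i u) (s + 1) c (l W) (by omega)]
    simp_rw [mul_assoc]
    rw [← Finset.mul_sum]
    congr 1
    have h2 : ∀ y : M.Code (2 * s + 1),
        M.total (fun c => if M.enc (2 * s + 1) c = y then 1 else 0) (l W) (M.trunc (s + 1) c) *
          b i u (M.app (M.dec (2 * s + 1) y) (fun j => (c.2 j).drop (s + 1))) =
        b i u (M.app (M.dec (2 * s + 1) y) (fun j => (c.2 j).drop (s + 1))) *
          M.total (fun c => if M.enc (2 * s + 1) c = y then 1 else 0) (l W)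
            (M.trunc (s + 1) c) := fun y => mul_comm _ _
    rw [Finset.sum_congr rfl (fun y _ => h2 y), ← M.total_sum]
    apply M.total_congr
    intro c' hc'
    rw [Finset.sum_eq_single (M.enc (2 * s + 1) c')]
    · rw [if_pos rfl, mul_one, dec_enc, M.trunc_of_le (2 * s + 1) c']
      intro j
      have h5 := M.reach_height (l W) (M.trunc (s + 1) c) c' (s + 1) (by omega) (by
        intro j
        unfold trunc
        simp only [List.length_take]
        omega) hc' j
      omega
    · intro y _ hy
      rw [if_neg (fun h => hy h.symm), mul_zero]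
    · intro h; exact absurd (Finset.mem_univ _) h
  · intro z _ hz
    apply Finset.sum_eq_zero
    intro y _
    rw [if_neg (fun h => hz h.symm), mul_zero]
  · intro h; exact absurd (Finset.mem_univ _) h

/-- all passes -/
lemma decomp_all {k : ℕ} (hk : 2 ≤ k) (s r : ℕ) : ∀ (ps : List Bool),
    M.Decomp k s r
      ((Fintype.card (M.Code (s + 1)) * Fintype.card (M.Code (2 * s + 1))) ^ ps.length)
      (fun W u => M.total M.fo (ps.flatMap (pass k W r u))) := by
  intro ps
  induction ps with
  | nil =>
    refine ⟨Unit, inferInstance, fun _ _ => 1, fun _ _ c => M.fo c, by simp, ?_⟩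
    intro W _ _ u _ c
    simp [total]
  | cons p ps ih =>
    have h3 : (fun W u => M.total M.fo ((p :: ps).flatMap (pass k W r u))) =
        fun W u => M.total (M.total M.fo (ps.flatMap (pass k W r u))) (pass k W r u p) := by
      funext W u
      rw [List.flatMap_cons, M.total_append]
    rw [h3, List.length_cons, pow_succ]
    cases p
    · have h1 := Decomp.stepW M ih (fun W => digW k W) (fun W hW => length_digW hk hW)
      have h2 := Decomp.stepU M h1 (fun u => none :: padU k r u)
      have h4 : (fun W u => M.total (M.total M.fo (ps.flatMap (pass k W r u)))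
          (pass k W r u false)) = fun W u => M.total (M.total (M.total M.fo
            (ps.flatMap (pass k W r u))) (digW k W)) (none :: padU k r u) := by
        funext W u
        rw [← M.total_append _ (none :: padU k r u)]
        simp [pass]
      rw [h4]
      exact h2
    · have h1 := Decomp.stepU M ih (fun u => (padU k r u).reverse)
      have h2 := Decomp.stepW M h1 (fun W => (digW k W).reverse)
        (fun W hW => by rw [List.length_reverse]; exact length_digW hk hW)
      have h4 := Decomp.stepU M h2 (fun u => [none])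
      have h5 : (fun W u => M.total (M.total M.fo (ps.flatMap (pass k W r u)))
          (pass k W r u true)) = fun W u => M.total (M.total (M.total (M.total M.fo
            (ps.flatMap (pass k W r u))) (padU k r u).reverse) (digW k W).reverse) [none] := by
        funext W u
        rw [← M.total_append, ← M.total_append, ← M.total_append, ← M.total_append]
        simp [pass]
      rw [h5]
      exact h4

lemma rank_all {k : ℕ} (hk : 2 ≤ k) (s r : ℕ) : RankLE (M.out k) k s r
    ((Fintype.card (M.Code (s + 1)) * Fintype.card (M.Code (2 * s + 1))) ^ M.passes.length + 1) := by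
  classical
  obtain ⟨I, hI, a, b, hc, h⟩ := M.decomp_all hk s r M.passes
  apply rankLE_of_pos I (by omega) (fun W i => a i W) (fun i u => b i u (M.start, fun _ => []))
  intro W hW hWs u hu
  refine Eq.trans ?_ (h W hW hWs u hu _)
  unfold out
  rw [M.input_eq hk hW hu]
  rfl

lemma memory_pos : 1 ≤ M.memory := by
  unfold memory
  exact Finset.prod_pos (fun i _ => M.size_pos i)

/-- the rate of a stack automaton -/
theorem rate {k : ℕ} (hk : 2 ≤ k) : RateLE (M.out k) k M.cost := by
  have hm := M.memory_pos
  unfold cost
  split_ifs with hp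
  · rcases hps : M.passes with _ | ⟨p, ps⟩
    · -- no pass: a constant
      refine ⟨2, 0, fun s r => ?_⟩
      refine (M.rank_all hk s r).mono ?_
      rw [hps, List.length_nil, pow_zero, pow_zero]
      have := Nat.one_le_pow s M.memory (by omega)
      omega
    · have hps' : ps = [] := by
        rw [hps, List.length_cons] at hp
        exact List.length_eq_zero_iff.1 (by omega)
      subst hps'
      refine ⟨Fintype.card M.State * (3 ^ M.numStacks * M.memory ^ 2) + 1, M.numStacks,
        fun s r => ?_⟩
      refine (M.rank_one hk p hps s r).mono ?_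
      rw [card_code]
      have h1 : (s + 2 + 1) ^ M.numStacks ≤ 3 ^ M.numStacks * (s + 1) ^ M.numStacks := by
        rw [← mul_pow]
        exact Nat.pow_le_pow_left (by omega) _
      have h2 : M.memory ^ (s + 2) = M.memory ^ 2 * M.memory ^ s := by ring
      have h3 : 1 ≤ (s + 1) ^ M.numStacks * M.memory ^ s :=
        Nat.mul_pos (by positivity) (by positivity)
      calc Fintype.card M.State * ((s + 2 + 1) ^ M.numStacks * M.memory ^ (s + 2)) + 1
          ≤ Fintype.card M.State * ((3 ^ M.numStacks * (s + 1) ^ M.numStacks) *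
            (M.memory ^ 2 * M.memory ^ s)) + (s + 1) ^ M.numStacks * M.memory ^ s := by
            rw [h2]; gcongr
        _ = _ := by ring
  · set P : ℕ := M.passes.length with hP
    refine ⟨(Fintype.card M.State * (2 ^ M.numStacks * M.memory) *
      (Fintype.card M.State * (2 ^ M.numStacks * M.memory))) ^ P + 1, 2 * M.numStacks * P,
      fun s r => ?_⟩
    refine (M.rank_all hk s r).mono ?_
    rw [← hP, card_code, card_code]
    have h1 : (s + 1 + 1) ^ M.numStacks ≤ 2 ^ M.numStacks * (s + 1) ^ M.numStacks := by
      rw [← mul_pow]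
      exact Nat.pow_le_pow_left (by omega) _
    have h1' : (2 * s + 1 + 1) ^ M.numStacks ≤ 2 ^ M.numStacks * (s + 1) ^ M.numStacks := by
      rw [← mul_pow]
      exact Nat.pow_le_pow_left (by omega) _
    have h3 : 1 ≤ (s + 1) ^ (2 * M.numStacks * P) * (M.memory ^ (3 * P)) ^ s :=
      Nat.mul_pos (by positivity) (by positivity)
    calc (Fintype.card M.State * ((s + 1 + 1) ^ M.numStacks * M.memory ^ (s + 1)) *
          (Fintype.card M.State * ((2 * s + 1 + 1) ^ M.numStacks *
            M.memory ^ (2 * s + 1)))) ^ P + 1
        ≤ (Fintype.card M.State * (2 ^ M.numStacks * (s + 1) ^ M.numStacks *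
            M.memory ^ (s + 1)) *
          (Fintype.card M.State * (2 ^ M.numStacks * (s + 1) ^ M.numStacks *
            M.memory ^ (2 * s + 1)))) ^ P +
          (s + 1) ^ (2 * M.numStacks * P) * (M.memory ^ (3 * P)) ^ s := by
          gcongr
      _ = _ := by
          have h4 : Fintype.card M.State * (2 ^ M.numStacks * (s + 1) ^ M.numStacks *
              M.memory ^ (s + 1)) * (Fintype.card M.State * (2 ^ M.numStacks *
              (s + 1) ^ M.numStacks * M.memory ^ (2 * s + 1))) =
              (Fintype.card M.State * (2 ^ M.numStacks * M.memory) *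
              (Fintype.card M.State * (2 ^ M.numStacks * M.memory))) *
              ((s + 1) ^ (2 * M.numStacks) * M.memory ^ (3 * s)) := by ring
          rw [h4, mul_pow, mul_pow ((s + 1) ^ (2 * M.numStacks)), ← pow_mul, ← pow_mul, ← pow_mul]
          have h5 : 3 * s * P = 3 * P * s := by ring
          rw [h5]; ring

/-! ### growth -/

lemma total_bound (S : Finset (Option ℕ)) (Wb B : ℕ)
    (hW : ∀ q, ∀ d ∈ S, ∀ t e, |M.weight q d t e| ≤ Wb) (f : M.Config → ℤ)
    (hf : ∀ c, |f c| ≤ B) : ∀ (l : List (Option ℕ)), (∀ d ∈ l, d ∈ S) → ∀ c,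
      |M.total f l c| ≤ (((Fintype.card M.Choice * Wb) ^ l.length * B : ℕ) : ℤ) := by
  intro l
  induction l with
  | nil => intro _ c; simpa [total] using hf c
  | cons d l ih =>
    intro hl c
    unfold total
    refine (Finset.abs_sum_le_sum_abs _ _).trans ?_
    calc ∑ e, |M.weight c.1 d (M.tops c) e * M.total f l (M.step c d e)|
        ≤ ∑ e : M.Choice, ((Wb * ((Fintype.card M.Choice * Wb) ^ l.length * B) : ℕ) : ℤ) := by
          apply Finset.sum_le_sum
          intro e _
          rw [abs_mul, Nat.cast_mul]
          exact mul_le_mul (hW _ d (hl d (by simp)) _ _) (ih (fun d hd => hl d (by simp [hd])) _)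
            (abs_nonneg _) (by positivity)
      _ = _ := by
          rw [Finset.sum_const, Finset.card_univ, List.length_cons, nsmul_eq_mul]
          push_cast
          ring

lemma input_length (k n : ℕ) :
    (M.input k n).length = M.passes.length * ((Nat.digits k n).length + 1) := by
  unfold input
  induction M.passes with
  | nil => simp
  | cons p ps ih =>
    have h1 : (none :: (if p then (Nat.digits k n).reverse else Nat.digits k n).map some).length =
        (Nat.digits k n).length + 1 := by
      cases p <;> simp
    rw [List.flatMap_cons, List.length_append, ih, h1, List.length_cons]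
    ring

lemma input_letters {k : ℕ} (hk : 2 ≤ k) (n : ℕ) :
    ∀ d ∈ M.input k n, d ∈ insert none ((Finset.range k).image some) := by
  intro d hd
  unfold input at hd
  rw [List.mem_flatMap] at hd
  obtain ⟨p, _, hd⟩ := hd
  rw [List.mem_cons] at hd
  rcases hd with rfl | hd
  · simp
  · rw [List.mem_map] at hd
    obtain ⟨x, hx, rfl⟩ := hd
    have hx' : x ∈ Nat.digits k n := by
      cases p
      · simpa using hx
      · simpa using hx
    rw [Finset.mem_insert, Finset.mem_image]
    right
    exact ⟨x, Finset.mem_range.2 (Nat.digits_lt_base (by omega) hx'), rfl⟩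

/-- the values grow at most polynomially -/
theorem out_poly {k : ℕ} (hk : 2 ≤ k) : PolyB (M.out k) := by
  classical
  set S : Finset (Option ℕ) := insert none ((Finset.range k).image some) with hS
  obtain ⟨Wb, hWb⟩ : ∃ Wb : ℕ, ∀ q, ∀ d ∈ S, ∀ t e, |M.weight q d t e| ≤ Wb := by
    let U : Finset (M.State × S × (∀ i, Option (Fin (M.size i))) × M.Choice) := Finset.univ
    let g : (M.State × S × (∀ i, Option (Fin (M.size i))) × M.Choice) → ℕ := fun x =>
      (M.weight x.1 x.2.1 x.2.2.1 x.2.2.2).natAbs
    refine ⟨U.sup g, ?_⟩
    intro q d hd t e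
    rw [Int.abs_eq_natAbs]
    have h2 := Finset.le_sup (f := g) (Finset.mem_univ (q, (⟨d, hd⟩ : S), t, e))
    exact_mod_cast h2
  obtain ⟨B, hB⟩ : ∃ B : ℕ, ∀ c : M.Config, |M.fo c| ≤ B := by
    let g : (M.State × (∀ i, Option (Fin (M.size i)))) → ℕ := fun x =>
      (M.output x.1 x.2).natAbs
    refine ⟨Finset.univ.sup g, ?_⟩
    intro c
    rw [Int.abs_eq_natAbs]
    have h2 := Finset.le_sup (f := g) (Finset.mem_univ (c.1, M.tops c))
    exact_mod_cast h2
  set X : ℕ := Fintype.card M.Choice * Wb with hX
  set P : ℕ := M.passes.length with hP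
  refine ⟨(k * k) ^ (X * P) * B + X * P, fun n => ?_⟩
  have h1 := M.total_bound S Wb B hWb M.fo hB (M.input k n) (M.input_letters hk n)
    (M.start, fun _ => [])
  refine h1.trans ?_
  rw [M.input_length, ← hX, ← hP]
  have hlen : k ^ (Nat.digits k n).length ≤ k * (n + 1) := by
    rcases Nat.eq_zero_or_pos n with h0 | hpos
    · subst h0; simp; omega
    · have := Nat.base_pow_length_digits_le k n (by omega : 1 < k) hpos.ne'
      nlinarith
  have h2 : X ^ (P * ((Nat.digits k n).length + 1)) ≤
      (k * k) ^ (X * P) * (n + 1) ^ (X * P) := by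
    have hXk : X ≤ k ^ X := (Nat.lt_pow_self (by omega)).le
    calc X ^ (P * ((Nat.digits k n).length + 1))
        ≤ (k ^ X) ^ (P * ((Nat.digits k n).length + 1)) := Nat.pow_le_pow_left hXk _
      _ = (k * k ^ (Nat.digits k n).length) ^ (X * P) := by
          rw [← pow_succ', ← pow_mul, ← pow_mul]
          congr 1; ring
      _ ≤ (k * (k * (n + 1))) ^ (X * P) := by gcongr
      _ = (k * k) ^ (X * P) * (n + 1) ^ (X * P) := by rw [← mul_pow]; congr 1; ring
  have h3 : X ^ (P * ((Nat.digits k n).length + 1)) * B ≤
      ((k * k) ^ (X * P) * B + X * P) * (n + 1) ^ ((k * k) ^ (X * P) * B + X * P) := by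
    calc X ^ (P * ((Nat.digits k n).length + 1)) * B
        ≤ (k * k) ^ (X * P) * (n + 1) ^ (X * P) * B := Nat.mul_le_mul_right _ h2
      _ = ((k * k) ^ (X * P) * B) * (n + 1) ^ (X * P) := by ring
      _ ≤ _ := Nat.mul_le_mul (by omega) (Nat.pow_le_pow_right (by omega) (by omega))
  exact_mod_cast h3

end StackAutomaton

/-- products of values -/
theorem exists_product (b k : ℕ) (hb : 2 ≤ b) (hk : 2 ≤ k) : ∀ (L : List StackAutomaton),
    ∃ F : ℕ → ℤ, PolyB F ∧ RateLE F k (L.map StackAutomaton.cost).prod ∧
      val b F = (L.map (fun M => val b (M.out k))).prod := by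
  intro L
  induction L with
  | nil =>
    refine ⟨one, polyB_one, ?_, ?_⟩
    · simpa using rateLE_one (show 0 < k by omega)
    · simpa using val_one b
  | cons M L ih =>
    obtain ⟨F, h1, h2, h3⟩ := ih
    have hMp : PolyB (M.out k) := M.out_poly hk
    refine ⟨conv (M.out k) F, hMp.conv h1, ?_, ?_⟩
    · rw [List.map_cons, List.prod_cons]
      exact (M.rate hk).conv (by omega) h2
    · rw [List.map_cons, List.prod_cons, val_conv hb hMp h1, h3]

/-- the main theorem -/
theorem main_machines (b : ℕ) (hb : 2 ≤ b) (ξ : ℝ) (hξ : IsAlgebraic ℚ ξ) (hirr : Irrational ξ)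
    {ι : Type} [Fintype ι] (k : ι → ℕ) (hk : ∀ i, 2 ≤ k i) (M : ι → List StackAutomaton)
    (hM : ∀ i, ((M i).map StackAutomaton.cost).prod < k i) (R : ι → ℚ) (G : ℕ → ℤ)
    (hG : PolyB G)
    (h : ξ = ∑ i, (R i : ℝ) * ((M i).map fun A => val b (A.out (k i))).prod + val b G) (C : ℕ) :
    ∃ N, ∀ m, N ≤ m → ∀ s t, s < t → t ≤ C * m → ∃ i, i < m ∧ G (s + i) ≠ G (t + i) := by
  choose F hF1 hF2 hF3 using fun i => exists_product b (k i) hb (hk i) (M i)
  apply main_series b hb ξ hξ hirr k hk F (fun i => rate_thin (hk i) (hM i) (hF2 i)) hF1 R G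
    hG _ C
  rw [h]
  congr 1
  apply Finset.sum_congr rfl
  intro i _
  rw [hF3 i]

end Pool.Agent.H648R2.T
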