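import Mathlib
import Pool.Agent.H648R2.T.Machine

set_option autoImplicit false

open Finset

namespace Pool.Agent.H648R2.T

lemma rankLE_of_matrix {F : ℕ → ℤ} {k s r ρ : ℕ}
    (h : (Matrix.of fun (W : Fin (k ^ s)) (u : Fin (k ^ r)) =>
      (F ((W : ℕ) * k ^ r + (u : ℕ)) : ℚ)).rank ≤ ρ) : RankLE F k s r ρ := by
  classical
  let row : Fin (k ^ s) → (Fin (k ^ r) → ℚ) := fun W u =>
    (F ((W : ℕ) * k ^ r + (u : ℕ)) : ℚ)
  have hfin : Module.finrank ℚ (Submodule.span ℚ (Set.range row)) ≤ ρ := by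
    rw [Matrix.rank_eq_finrank_span_row] at h
    exact h
  generalize hV : Submodule.span ℚ (Set.range row) = V at hfin
  let e := Module.finBasis ℚ V
  have hmem : ∀ W, row W ∈ V := fun W => by rw [← hV]; exact Submodule.subset_span ⟨W, rfl⟩
  apply rankLE_of (Fin (Module.finrank ℚ V)) (by simpa using hfin)
    (fun W z => if hW : W < k ^ s then e.repr ⟨row ⟨W, hW⟩, hmem _⟩ z else 0)
    (fun z u => if hu : u < k ^ r then (e z : Fin (k ^ r) → ℚ) ⟨u, hu⟩ else 0)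
  intro W hW u hu
  have h1 : ∀ (y : V), (y : Fin (k ^ r) → ℚ) = ∑ z, e.repr y z • (e z : Fin (k ^ r) → ℚ) := by
    intro y
    calc (y : Fin (k ^ r) → ℚ) = ((∑ z, e.repr y z • e z : V) : Fin (k ^ r) → ℚ) := by
          rw [e.sum_repr]
      _ = _ := by rw [Submodule.coe_sum]; rfl
  have h3 := congrFun (h1 ⟨row ⟨W, hW⟩, hmem _⟩) ⟨u, hu⟩
  rw [Finset.sum_apply] at h3
  simp only [dif_pos hW, dif_pos hu]
  refine Eq.trans ?_ (h3.trans ?_)
  · rfl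
  · apply Finset.sum_congr rfl
    intro z _
    rw [Pi.smul_apply, smul_eq_mul]

lemma polyB_iff {F : ℕ → ℤ} (h : ∃ K : ℕ, ∀ n : ℕ, |F n| ≤ (K : ℤ) * ((n : ℤ) + 1) ^ K) :
    PolyB F := by
  obtain ⟨K, hK⟩ := h
  exact ⟨K, fun n => by push_cast; exact hK n⟩

theorem thin_of_matrix {F : ℕ → ℤ} {k : ℕ}
    (h : ∀ T : ℕ, ∃ s r0 : ℕ, ∀ r, r0 ≤ r → T * ((Matrix.of fun (W : Fin (k ^ s))
      (u : Fin (k ^ r)) => (F ((W : ℕ) * k ^ r + (u : ℕ)) : ℚ)).rank + 1) ≤ k ^ s) :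
    Thin F k := by
  intro T
  obtain ⟨s, r0, hs⟩ := h (2 * (T + 1))
  -- the largest possible value of the rank
  refine ⟨s, k ^ s / (2 * (T + 1)), r0, ?_, ?_⟩
  · have h1 := hs r0 le_rfl
    have h2 : 2 * (T + 1) * (k ^ s / (2 * (T + 1))) ≤ k ^ s := Nat.mul_div_le _ _
    have h3 : 2 * (T + 1) ≤ k ^ s := by nlinarith
    nlinarith
  · intro r hr
    apply rankLE_of_matrix
    have h1 := hs r hr
    rw [Nat.le_div_iff_mul_le (by omega)]
    nlinarith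

end Pool.Agent.H648R2.T
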